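import Pool.Agent.Q214.BH.Stm

set_option autoImplicit false

/-!
# Job NF of the project BH: orienting the edges on the non-free part
-/

namespace Pool.Agent.Q14.BH

open Pool.Agent.Q214.BH Set

/-- words -/
def ev {Γ : Type} [Group Γ] : List Γ → FP Γ
  | [] => 1
  | a :: l => Monoid.Coprod.inl a * tau Γ * ev l

theorem tau_mul_tau {Γ : Type} [Group Γ] : tau Γ * tau Γ = 1 := by
  rw [tau, ← map_mul]
  have h : Multiplicative.ofAdd (1 : ZMod 2) * Multiplicative.ofAdd 1 = 1 := by decide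
  rw [h, map_one]

theorem tau_smul_tau {Γ : Type} [Group Γ] {Y : Type} [MulAction (FP Γ) Y] (x : Y) :
    tau Γ • tau Γ • x = x := by
  rw [smul_smul, tau_mul_tau, one_smul]

theorem ev_append {Γ : Type} [Group Γ] (l l' : List Γ) : ev (l ++ l') = ev l * ev l' := by
  induction l with
  | nil => simp [ev]
  | cons a l ih => simp [ev, ih, mul_assoc]

theorem inl_mul_ev {Γ : Type} [Group Γ] (c : Γ) (l : List Γ) :
    ∃ (l' : List Γ) (c' : Γ), l'.length = l.length ∧
      (Monoid.Coprod.inl c : FP Γ) * ev l = ev l' * Monoid.Coprod.inl c' := by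
  cases l with
  | nil => exact ⟨[], c, rfl, by simp [ev]⟩
  | cons a l => exact ⟨(c * a) :: l, 1, rfl, by simp [ev, mul_assoc]⟩

theorem exists_form {Γ : Type} [Group Γ] (x : FP Γ) :
    ∃ (l : List Γ) (b : Γ), x = ev l * Monoid.Coprod.inl b := by
  induction x using Monoid.Coprod.induction_on' with
  | one => exact ⟨[], 1, by simp [ev]⟩
  | inl_mul m x ih =>
    obtain ⟨l, b, rfl⟩ := ih
    obtain ⟨l', c', -, h⟩ := inl_mul_ev m l
    exact ⟨l', c' * b, by rw [← mul_assoc, h, mul_assoc, ← map_mul]⟩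
  | inr_mul n x ih =>
    obtain ⟨l, b, rfl⟩ := ih
    have h2 : n = 1 ∨ n = Multiplicative.ofAdd 1 := by
      revert n
      decide
    rcases h2 with rfl | rfl
    · exact ⟨l, b, by simp⟩
    · exact ⟨1 :: l, b, by simp [ev, tau, mul_assoc]⟩

/-- in an orbit with a nontrivial stabiliser there is a cycle which uses no edge in both
directions -/
theorem exists_cycle {Γ : Type} [Group Γ] {Y : Type} [MulAction (FP Γ) Y]
    (hfree : ∀ (γ : Γ) (x : Y), (Monoid.Coprod.inl γ : FP Γ) • x = x → γ = 1)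
    (htau : ∀ x : Y, tau Γ • x ≠ x) (x : Y) (hx : ∃ γ : FP Γ, γ ≠ 1 ∧ γ • x = x) :
    ∃ (l : List Γ) (γ : FP Γ), l ≠ [] ∧ ev l • γ • x = γ • x ∧
      ∀ s₁ s₂, s₁ <:+ l → s₂ <:+ l → ev s₁ • γ • x ≠ tau Γ • ev s₂ • γ • x := by
  classical
  -- the reduction
  have hR : ∀ (l : List Γ) (b : Γ) (γ : FP Γ),
      (ev l * Monoid.Coprod.inl b) • γ • x = γ • x → ev l * Monoid.Coprod.inl b ≠ 1 →
      ∃ (l' : List Γ) (γ' : FP Γ), l'.length = l.length ∧ ev l' • γ' • x = γ' • x ∧
        ev l' ≠ 1 := by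
    intro l b γ hfix hne
    cases l with
    | nil =>
      exfalso
      simp only [ev, one_mul] at hfix hne
      exact hne (by rw [hfree b _ hfix, map_one])
    | cons a l =>
      refine ⟨(b * a) :: l, Monoid.Coprod.inl b * γ, rfl, ?_, ?_⟩
      · have h1 : ev ((b * a) :: l) = (Monoid.Coprod.inl b : FP Γ) * ev (a :: l) := by
          simp [ev, mul_assoc]
        rw [h1, mul_smul, mul_smul, ← mul_smul (ev (a :: l)), hfix]
      · intro h
        apply hne
        have h1 : ev ((b * a) :: l) = (Monoid.Coprod.inl b : FP Γ) * ev (a :: l) := by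
          simp [ev, mul_assoc]
        rw [h1] at h
        exact mul_eq_one_iff_eq_inv.2 (by rw [eq_inv_iff_mul_eq_one]; exact (mul_eq_one_iff_eq_inv.1 h) ▸ by simp)
  have hex : ∃ m : ℕ, ∃ (l : List Γ) (γ : FP Γ), l.length = m ∧ ev l • γ • x = γ • x ∧
      ev l ≠ 1 := by
    obtain ⟨γ, hγ1, hγx⟩ := hx
    obtain ⟨l, b, rfl⟩ := exists_form γ
    obtain ⟨l', γ', h1, h2, h3⟩ := hR l b 1 (by rw [one_smul]; exact hγx) hγ1
    exact ⟨l'.length, l', γ', rfl, h2, h3⟩
  set m := Nat.find hex with hm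
  obtain ⟨l, γ, hlen, hfix, hne⟩ := Nat.find_spec hex
  rw [← hm] at hlen
  have hM : ∀ (l' : List Γ) (b : Γ) (γ' : FP Γ), l'.length < m →
      (ev l' * Monoid.Coprod.inl b) • γ' • x = γ' • x → ev l' * Monoid.Coprod.inl b = 1 := by
    intro l' b γ' hlt hf
    by_contra hcon
    obtain ⟨l'', γ'', h1, h2, h3⟩ := hR l' b γ' hf hcon
    exact Nat.find_min hex (by rw [h1]; exact hlt) ⟨l'', γ'', rfl, h2, h3⟩
  have hl0 : l ≠ [] := by
    rintro rfl
    exact hne rfl
  -- the main claim for comparable suffixes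
  have key : ∀ w s v : List Γ, v ≠ [] → l = v ++ (w ++ s) →
      ev s • γ • x ≠ tau Γ • ev (w ++ s) • γ • x := by
    intro w s v hv hl hcon
    rcases List.eq_nil_or_concat w with rfl | ⟨w', b, rfl⟩
    · rw [List.nil_append] at hcon
      exact htau _ hcon.symm
    · rw [List.concat_eq_append] at hcon hl
      -- `ev w' ι b` fixes `t z`
      have h1 : (ev w' * Monoid.Coprod.inl b) • (tau Γ * ev s * γ) • x
          = (tau Γ * ev s * γ) • x := by
        have h2 : tau Γ • ev s • γ • x = ev (w' ++ [b] ++ s) • γ • x := by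
          rw [hcon, tau_smul_tau]
        rw [ev_append, ev_append] at h2
        simp only [ev, mul_one, mul_smul] at h2 ⊢
        exact h2.symm
      have hlen2 : w'.length < m := by
        rw [← hlen, hl]
        simp only [List.length_append, List.length_cons, List.length_nil]
        omega
      have h3 := hM w' b _ hlen2 h1
      rcases List.eq_nil_or_concat v with rfl | ⟨v', c, rfl⟩
      · exact hv rfl
      · rw [List.concat_eq_append] at hl
        obtain ⟨s', c', hs', hc'⟩ := inl_mul_ev c s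
        have h4 : ev l = ev (v' ++ s') * Monoid.Coprod.inl c' := by
          rw [hl, ev_append, ev_append, ev_append, ev_append, ev_append]
          simp only [ev, mul_one]
          calc ev v' * (Monoid.Coprod.inl c * tau Γ) *
                (ev w' * (Monoid.Coprod.inl b * tau Γ) * ev s)
              = ev v' * Monoid.Coprod.inl c * tau Γ *
                ((ev w' * Monoid.Coprod.inl b) * tau Γ * ev s) := by
                simp only [mul_assoc]
            _ = ev v' * Monoid.Coprod.inl c * (tau Γ * tau Γ) * ev s := by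
                rw [h3]; simp only [mul_assoc, one_mul]
            _ = ev v' * ev s' * Monoid.Coprod.inl c' := by
                rw [tau_mul_tau, mul_one, mul_assoc, hc', mul_assoc]
        apply hne
        rw [h4]
        refine hM _ _ γ ?_ ?_
        · rw [← hlen, hl]
          simp only [List.length_append, List.length_cons, List.length_nil, hs']
          omega
        · rw [← h4]; exact hfix
  refine ⟨l, γ, hl0, hfix, ?_⟩
  -- comparable suffixes in a symmetric form
  have key2 : ∀ s₁ s₂, s₁ <:+ s₂ → s₂ <:+ l → ev s₁ • γ • x ≠ tau Γ • ev s₂ • γ • x := by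
    rintro s₁ s₂ ⟨w, rfl⟩ ⟨v, hv⟩
    by_cases hv0 : v = []
    · subst hv0
      rw [List.nil_append] at hv
      rw [hv, hfix]
      intro hcon
      -- `y = t ev s₁ y`
      have h5 : ev ([] : List Γ) • γ • x ≠ tau Γ • ev (s₁ ++ ([] : List Γ)) • γ • x := by
        by_cases hw : w = []
        · subst hw
          rw [List.nil_append] at hv
          subst hv
          rw [List.append_nil, hfix]
          simp only [ev, one_smul]
          exact (htau _).symm
        · exact key s₁ [] w hw (by rw [List.append_nil]; exact hv.symm)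
      apply h5
      rw [List.append_nil, hcon, tau_smul_tau]
      simp [ev]
    · exact key w s₁ v hv0 hv.symm
  intro s₁ s₂ h1 h2
  rcases List.suffix_or_suffix_of_suffix h1 h2 with h | h
  · exact key2 s₁ s₂ h h2
  · intro hcon
    refine key2 s₂ s₁ h h1 ?_
    rw [hcon, tau_smul_tau]

/-- a countable family of measurable sets which separates disjoint finite sets -/
theorem exists_sep (Y : Type) [MeasurableSpace Y] [StandardBorelSpace Y] :
    ∃ B : ℕ → Set Y, (∀ n, MeasurableSet (B n)) ∧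
      ∀ F₁ F₂ : Set Y, F₁.Finite → F₂.Finite → Disjoint F₁ F₂ →
        ∃ n, (∀ y ∈ F₁, y ∈ B n) ∧ ∀ y ∈ F₂, y ∉ B n := by
  classical
  obtain ⟨f, hf, hinj⟩ :=
    MeasurableSpace.measurable_injection_nat_bool_of_countablySeparated Y
  let C : Type := Σ n : ℕ, Finset (Fin n → Bool)
  have : Nonempty C := ⟨⟨0, ∅⟩⟩
  obtain ⟨e, he⟩ := exists_surjective_nat C
  have hpre : ∀ n : ℕ, Measurable (fun y : Y => fun i : Fin n => f y i) := by
    intro n
    exact measurable_pi_lambda _ fun i => (measurable_pi_apply _).comp hf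
  refine ⟨fun k => {y | (fun i : Fin (e k).1 => f y i) ∈ (e k).2}, ?_, ?_⟩
  · intro k
    exact (hpre (e k).1) (Set.Finite.measurableSet (Finset.finite_toSet (e k).2))
  · intro F₁ F₂ h1 h2 hd
    have hN : ∃ N : ℕ, ∀ y ∈ F₁, ∀ z ∈ F₂, (fun i : Fin N => f y i) ≠ fun i : Fin N => f z i := by
      have hpt : ∀ p : Y × Y, ∃ N : ℕ, p.1 ∈ F₁ → p.2 ∈ F₂ → ∃ i, i < N ∧ f p.1 i ≠ f p.2 i := by
        intro p
        by_cases hp : p.1 ∈ F₁ ∧ p.2 ∈ F₂
        · have hne : p.1 ≠ p.2 := by
            intro h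
            exact Set.disjoint_left.1 hd hp.1 (h ▸ hp.2)
          have h3 : ∃ i, f p.1 i ≠ f p.2 i := by
            by_contra hcon
            push Not at hcon
            exact hne (hinj (funext hcon))
          obtain ⟨i, hi⟩ := h3
          exact ⟨i + 1, fun _ _ => ⟨i, Nat.lt_succ_self i, hi⟩⟩
        · exact ⟨0, fun ha hb => absurd ⟨ha, hb⟩ hp⟩
      choose N hNs using hpt
      have hfin : (F₁ ×ˢ F₂).Finite := h1.prod h2
      obtain ⟨M, hM⟩ := (hfin.image N).bddAbove
      refine ⟨M, ?_⟩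
      intro y hy z hz hcon
      obtain ⟨i, hi, hne⟩ := hNs (y, z) hy hz
      have hle : N (y, z) ≤ M := hM ⟨(y, z), ⟨hy, hz⟩, rfl⟩
      exact hne (congrFun hcon ⟨i, by omega⟩)
    obtain ⟨N, hN⟩ := hN
    obtain ⟨k, hk⟩ := he ⟨N, (h1.toFinset).image (fun y => fun i : Fin N => f y i)⟩
    refine ⟨k, ?_, ?_⟩
    · intro y hy
      change (fun i : Fin (e k).1 => f y i) ∈ (e k).2
      rw [hk]
      exact Finset.mem_image.2 ⟨y, h1.mem_toFinset.2 hy, rfl⟩
    · intro z hz hcon
      change (fun i : Fin (e k).1 => f z i) ∈ (e k).2 at hcon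
      rw [hk] at hcon
      obtain ⟨y, hy, hyz⟩ := Finset.mem_image.1 hcon
      exact hN y (h1.mem_toFinset.1 hy) z hz hyz

/-- the points whose `Γ`-orbit is at distance at most `k` from `Q₁` -/
def lev (Γ : Type) [Group Γ] {Y : Type} [MulAction (FP Γ) Y] (Q₁ : Set Y) : ℕ → Set Y
  | 0 => ⋃ γ : Γ, (fun y : Y => (Monoid.Coprod.inl γ : FP Γ) • y) ⁻¹' Q₁
  | k + 1 => lev Γ Q₁ k ∪
      ⋃ γ : Γ, (fun y : Y => (tau Γ * Monoid.Coprod.inl γ : FP Γ) • y) ⁻¹' (lev Γ Q₁ k)

/-- the job NF -/
theorem nf : S_NF := by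
  classical
  intro Γ _ _ Y _ _ _ hmeas hfree htau
  have hcFP : Countable (FP Γ) := by
    have hsurj : Function.Surjective
        (fun p : List Γ × Γ => (ev p.1 * Monoid.Coprod.inl p.2 : FP Γ)) := by
      intro x
      obtain ⟨l, b, h⟩ := exists_form x
      exact ⟨(l, b), h.symm⟩
    exact hsurj.countable
  obtain ⟨B, hBm, hB⟩ := exists_sep Y
  -- the codes
  obtain ⟨e, he⟩ := exists_injective_nat (List Γ × ℕ)
  let K : List Γ × ℕ → Set Y := fun c => {y | c.1 ≠ [] ∧ ev c.1 • y = y ∧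
    ∀ s, s <:+ c.1 → ev s • y ∈ B c.2 ∧ tau Γ • ev s • y ∉ B c.2}
  have hKm : ∀ c, MeasurableSet (K c) := by
    intro c
    by_cases hc : c.1 = []
    · have : K c = ∅ := by
        ext y
        simp only [K, mem_ofPred_eq, mem_empty_iff_false, iff_false]
        exact fun h => h.1 hc
      rw [this]
      exact MeasurableSet.empty
    · have h1 : K c = {y | ev c.1 • y = y} ∩ ⋂ s : List Γ, {y | s <:+ c.1 →
          ev s • y ∈ B c.2 ∧ tau Γ • ev s • y ∉ B c.2} := by
        ext y
        simp only [K, mem_ofPred_eq, mem_inter_iff, mem_iInter]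
        tauto
      rw [h1]
      refine MeasurableSet.inter (measurableSet_eq_fun (hmeas _) measurable_id) ?_
      refine MeasurableSet.iInter fun s => ?_
      by_cases hs : s <:+ c.1
      · have h2 : {y | s <:+ c.1 → ev s • y ∈ B c.2 ∧ tau Γ • ev s • y ∉ B c.2}
            = (fun y : Y => ev s • y) ⁻¹' (B c.2) ∩
              (fun y : Y => ev s • y) ⁻¹' ((fun y : Y => tau Γ • y) ⁻¹' (B c.2)ᶜ) := by
          ext y
          simp only [mem_ofPred_eq, mem_inter_iff, mem_preimage, mem_compl_iff, hs, true_imp_iff]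
        rw [h2]
        exact ((hmeas _) (hBm _)).inter ((hmeas _) ((hmeas _) (hBm _).compl))
      · have h2 : {y | s <:+ c.1 → ev s • y ∈ B c.2 ∧ tau Γ • ev s • y ∉ B c.2} = univ := by
          ext y
          simp only [mem_ofPred_eq, mem_univ, iff_true]
          exact fun h => absurd h hs
        rw [h2]
        exact MeasurableSet.univ
  -- the saturations
  let St : List Γ × ℕ → Set Y := fun c => ⋃ γ : FP Γ, (fun y : Y => γ • y) ⁻¹' (K c)
  have hStm : ∀ c, MeasurableSet (St c) := fun c =>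
    MeasurableSet.iUnion fun γ => (hmeas γ) (hKm c)
  have hSt : ∀ c y, y ∈ St c ↔ ∃ γ : FP Γ, γ • y ∈ K c := by
    intro c y
    simp only [St, mem_iUnion, mem_preimage]
  have hStinv : ∀ c (γ : FP Γ) y, γ • y ∈ St c ↔ y ∈ St c := by
    intro c γ y
    rw [hSt, hSt]
    constructor
    · rintro ⟨δ, h⟩
      exact ⟨δ * γ, by rw [mul_smul]; exact h⟩
    · rintro ⟨δ, h⟩
      exact ⟨δ * γ⁻¹, by rw [mul_smul, inv_smul_smul]; exact h⟩
  -- the cycles
  let Q₁ : Set Y := {z | ∃ (c : List Γ × ℕ) (s : List Γ), s <:+ c.1 ∧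
    (ev s)⁻¹ • z ∈ K c ∧ ∀ c', e c' < e c → z ∉ St c'}
  have hQ₁m : MeasurableSet Q₁ := by
    have h1 : Q₁ = ⋃ c : List Γ × ℕ, ⋃ s : List Γ, {z | s <:+ c.1 ∧
        (ev s)⁻¹ • z ∈ K c ∧ ∀ c', e c' < e c → z ∉ St c'} := by
      ext z
      simp only [Q₁, mem_ofPred_eq, mem_iUnion]
    rw [h1]
    refine MeasurableSet.iUnion fun c => MeasurableSet.iUnion fun s => ?_
    by_cases hs : s <:+ c.1
    · have h2 : {z | s <:+ c.1 ∧ (ev s)⁻¹ • z ∈ K c ∧ ∀ c', e c' < e c → z ∉ St c'}
          = (fun y : Y => (ev s)⁻¹ • y) ⁻¹' (K c) ∩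
            ⋂ c' : List Γ × ℕ, {z | e c' < e c → z ∉ St c'} := by
        ext z
        simp only [mem_ofPred_eq, mem_inter_iff, mem_preimage, mem_iInter, hs, true_and]
      rw [h2]
      refine ((hmeas _) (hKm c)).inter (MeasurableSet.iInter fun c' => ?_)
      by_cases hc' : e c' < e c
      · have h3 : {z | e c' < e c → z ∉ St c'} = (St c')ᶜ := by
          ext z
          simp only [mem_ofPred_eq, mem_compl_iff, hc', true_imp_iff]
        rw [h3]
        exact (hStm c').compl
      · have h3 : {z : Y | e c' < e c → z ∉ St c'} = univ := by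
          ext z
          simp only [mem_ofPred_eq, mem_univ, iff_true]
          exact fun h => absurd h hc'
        rw [h3]
        exact MeasurableSet.univ
    · have h2 : {z | s <:+ c.1 ∧ (ev s)⁻¹ • z ∈ K c ∧ ∀ c', e c' < e c → z ∉ St c'} = ∅ := by
        ext z
        simp only [mem_ofPred_eq, mem_empty_iff_false, iff_false]
        exact fun h => hs h.1
      rw [h2]
      exact MeasurableSet.empty
  have hQSt : ∀ (c : List Γ × ℕ) (s : List Γ) (z : Y), (ev s)⁻¹ • z ∈ K c → z ∈ St c :=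
    fun c s z h => (hSt c z).2 ⟨_, h⟩
  -- (a)
  have ha : ∀ z, z ∈ Q₁ → tau Γ • z ∉ Q₁ := by
    rintro z ⟨c, s, hs, hK, hmin⟩ ⟨c', s', hs', hK', hmin'⟩
    have h1 : z ∈ St c := hQSt c s z hK
    have h2 : z ∈ St c' := (hStinv c' (tau Γ) z).1 (hQSt c' s' _ hK')
    have h3 : ¬ e c' < e c := fun h => hmin c' h h2
    have h4 : ¬ e c < e c' := fun h => hmin' c h ((hStinv c (tau Γ) z).2 h1)
    have h5 : c = c' := he (by omega)
    subst h5
    have h6 := (hK.2.2 s hs).1
    rw [smul_inv_smul] at h6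
    have h7 := (hK'.2.2 s' hs').2
    rw [smul_inv_smul, tau_smul_tau] at h7
    exact h7 h6
  -- (b)
  have hb : ∀ z, z ∈ Q₁ → ∃ γ : Γ, (Monoid.Coprod.inl γ : FP Γ) • tau Γ • z ∈ Q₁ := by
    rintro z ⟨c, s, hs, hK, hmin⟩
    obtain ⟨v, hv⟩ := hs
    have hmin2 : ∀ γ : FP Γ, ∀ c', e c' < e c → γ • z ∉ St c' :=
      fun γ c' h hcon => hmin c' h ((hStinv c' γ z).1 hcon)
    rcases List.eq_nil_or_concat v with rfl | ⟨v', a, rfl⟩
    · rw [List.nil_append] at hv
      subst hv
      have hy : z = (ev c.1)⁻¹ • z := by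
        have h1 := hK.2.1
        rw [smul_inv_smul] at h1
        exact h1
      rcases List.eq_nil_or_concat c.1 with h0 | ⟨l', a, hl⟩
      · exact absurd h0 hK.1
      · rw [List.concat_eq_append] at hl
        refine ⟨a, c, [a], ⟨l', hl.symm⟩, ?_, ?_⟩
        · simp only [ev, mul_one]
          rw [← mul_smul (Monoid.Coprod.inl a : FP Γ), inv_smul_smul, hy]
          exact hK
        · rw [← mul_smul]
          exact hmin2 _
    · rw [List.concat_eq_append] at hv
      refine ⟨a, c, a :: s, ⟨v', by rw [← hv, List.append_assoc]; rfl⟩, ?_, ?_⟩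
      · have h1 : (ev (a :: s))⁻¹ • (Monoid.Coprod.inl a : FP Γ) • tau Γ • z
            = (ev s)⁻¹ • z := by
          rw [inv_smul_eq_iff]
          simp only [ev, mul_smul]
          rw [smul_inv_smul]
        rw [h1]
        exact hK
      · rw [← mul_smul]
        exact hmin2 _
  -- (c)
  have hc : ∀ x : Y, (∃ γ : FP Γ, γ ≠ 1 ∧ γ • x = x) → ∃ γ : FP Γ, γ • x ∈ Q₁ := by
    intro x hx
    obtain ⟨l, γ, hl0, hfix, hcyc⟩ := exists_cycle hfree htau x hx
    have hfinS : {s : List Γ | s <:+ l}.Finite := by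
      refine (Finset.finite_toSet (l.tails.toFinset)).subset ?_
      intro s hs
      simp only [Finset.mem_coe, List.mem_toFinset, List.mem_tails]
      exact hs
    obtain ⟨n, hn1, hn2⟩ := hB ((fun s => ev s • γ • x) '' {s : List Γ | s <:+ l})
      ((fun s => tau Γ • ev s • γ • x) '' {s : List Γ | s <:+ l})
      (hfinS.image _) (hfinS.image _) (by
        rw [Set.disjoint_left]
        rintro y ⟨s₁, hs₁, rfl⟩ ⟨s₂, hs₂, h⟩
        exact hcyc s₁ s₂ hs₁ hs₂ h.symm)
    have hcode : ∃ k, ∃ c, e c = k ∧ x ∈ St c := by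
      refine ⟨_, (l, n), rfl, (hSt _ _).2 ⟨γ, hl0, hfix, ?_⟩⟩
      intro s hs
      exact ⟨hn1 _ ⟨s, hs, rfl⟩, hn2 _ ⟨s, hs, rfl⟩⟩
    obtain ⟨c, hc1, hc2⟩ := Nat.find_spec hcode
    obtain ⟨δ, hδ⟩ := (hSt _ _).1 hc2
    refine ⟨δ, c, [], List.nil_suffix, ?_, ?_⟩
    · simp only [ev, inv_one, one_smul]
      exact hδ
    · intro c' hc' hcon
      exact Nat.find_min hcode (by rw [← hc1]; exact hc') ⟨c', rfl, (hStinv _ _ _).1 hcon⟩
  -- the levels
  let A : ℕ → Set Y := lev Γ Q₁
  have hA0 : A 0 = ⋃ γ : Γ, (fun y : Y => (Monoid.Coprod.inl γ : FP Γ) • y) ⁻¹' Q₁ := rfl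
  have hAs : ∀ k, A (k + 1) = A k ∪
      ⋃ γ : Γ, (fun y : Y => (tau Γ * Monoid.Coprod.inl γ : FP Γ) • y) ⁻¹' (A k) := fun k => rfl
  have hAm : ∀ k, MeasurableSet (A k) := by
    intro k
    induction k with
    | zero =>
      rw [hA0]
      exact MeasurableSet.iUnion fun γ => (hmeas _) hQ₁m
    | succ k ih =>
      rw [hAs]
      exact ih.union (MeasurableSet.iUnion fun γ => (hmeas _) ih)
  have hAinv : ∀ k (γ : Γ) x, (Monoid.Coprod.inl γ : FP Γ) • x ∈ A k ↔ x ∈ A k := by
    have hone : ∀ k (γ : Γ) x, x ∈ A k → (Monoid.Coprod.inl γ : FP Γ) • x ∈ A k := by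
      intro k
      induction k with
      | zero =>
        intro γ x hx
        rw [hA0] at hx ⊢
        simp only [mem_iUnion, mem_preimage] at hx ⊢
        obtain ⟨δ, hδ⟩ := hx
        refine ⟨δ * γ⁻¹, ?_⟩
        rw [smul_smul, ← map_mul, inv_mul_cancel_right]
        exact hδ
      | succ k ih =>
        intro γ x hx
        rw [hAs] at hx ⊢
        rcases hx with hx | hx
        · exact Or.inl (ih γ x hx)
        · right
          simp only [mem_iUnion, mem_preimage] at hx ⊢
          obtain ⟨δ, hδ⟩ := hx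
          refine ⟨δ * γ⁻¹, ?_⟩
          rw [smul_smul, mul_assoc, ← map_mul, inv_mul_cancel_right]
          exact hδ
    intro k γ x
    refine ⟨fun h => ?_, hone k γ x⟩
    have h2 := hone k γ⁻¹ _ h
    rw [smul_smul, ← map_mul, inv_mul_cancel, map_one, one_smul] at h2
    exact h2
  have hAmono : ∀ j k, j ≤ k → A j ⊆ A k := by
    intro j k hjk
    induction k with
    | zero =>
      have : j = 0 := by omega
      subst this
      exact Subset.rfl
    | succ k ih =>
      rcases Nat.lt_or_ge k j with h | h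
      · have : j = k + 1 := by omega
        subst this
        exact Subset.rfl
      · rw [hAs]
        exact (ih h).trans subset_union_left
  have hAQ : ∀ x ∈ Q₁, x ∈ A 0 := by
    intro x hx
    rw [hA0]
    simp only [mem_iUnion, mem_preimage]
    exact ⟨1, by rw [map_one, one_smul]; exact hx⟩
  have hAall : ∀ (γ : FP Γ) (x : Y), (∃ k, x ∈ A k) → ∃ k, γ • x ∈ A k := by
    intro γ
    induction γ using Monoid.Coprod.induction_on' with
    | one =>
      intro x hx
      rw [one_smul]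
      exact hx
    | inl_mul m y ih =>
      intro x hx
      obtain ⟨k, hk⟩ := ih x hx
      exact ⟨k, by rw [mul_smul]; exact (hAinv k m _).2 hk⟩
    | inr_mul n y ih =>
      intro x hx
      obtain ⟨k, hk⟩ := ih x hx
      have h2 : n = 1 ∨ n = Multiplicative.ofAdd 1 := by
        revert n
        decide
      rcases h2 with rfl | rfl
      · exact ⟨k, by rw [map_one, one_mul]; exact hk⟩
      · refine ⟨k + 1, ?_⟩
        rw [hAs]
        right
        simp only [mem_iUnion, mem_preimage]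
        refine ⟨1, ?_⟩
        rw [map_one, mul_one, mul_smul]
        change tau Γ • tau Γ • y • x ∈ A k
        rw [tau_smul_tau]
        exact hk
  refine ⟨Q₁ ∪ ⋃ k : ℕ, {x | x ∈ A (k + 1) ∧ x ∉ A k ∧ tau Γ • x ∈ A k}, ?_, ?_, ?_⟩
  · refine hQ₁m.union (MeasurableSet.iUnion fun k => ?_)
    exact (hAm (k + 1)).inter ((hAm k).compl.inter ((hmeas _) (hAm k)))
  · intro x hx
    obtain ⟨γ, hγ⟩ := hc x hx
    have hex : ∃ k, x ∈ A k := by
      obtain ⟨k, hk⟩ := hAall γ⁻¹ (γ • x) ⟨0, hAQ _ hγ⟩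
      exact ⟨k, by rw [inv_smul_smul] at hk; exact hk⟩
    obtain ⟨k₀, hspec, hmin⟩ : ∃ k, x ∈ A k ∧ ∀ j, j < k → x ∉ A j :=
      ⟨Nat.find hex, Nat.find_spec hex, fun j hj => Nat.find_min hex hj⟩
    rcases k₀ with _ | k
    · rw [hA0] at hspec
      simp only [mem_iUnion, mem_preimage] at hspec
      obtain ⟨δ, hδ⟩ := hspec
      exact ⟨δ, Or.inl hδ⟩
    · have hnot : x ∉ A k := hmin k (Nat.lt_succ_self k)
      have hspec2 := hspec
      rw [hAs] at hspec
      rcases hspec with h1 | h1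
      · exact absurd h1 hnot
      · simp only [mem_iUnion, mem_preimage] at h1
        obtain ⟨δ, hδ⟩ := h1
        refine ⟨δ, Or.inr ?_⟩
        simp only [mem_iUnion, mem_ofPred_eq]
        refine ⟨k, (hAinv _ _ _).2 hspec2, fun hcon => hnot ((hAinv _ _ _).1 hcon), ?_⟩
        rw [← mul_smul]
        exact hδ
  · rintro x (hx | hx) (hy | hy)
    · exact ha x hx hy
    · simp only [mem_iUnion, mem_ofPred_eq] at hy
      obtain ⟨k, h1, h2, h3⟩ := hy
      obtain ⟨γ, hγ⟩ := hb x hx
      apply h2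
      rw [← hAinv k γ]
      exact hAmono 0 k (Nat.zero_le k) (hAQ _ hγ)
    · simp only [mem_iUnion, mem_ofPred_eq] at hx
      obtain ⟨k, h1, h2, h3⟩ := hx
      obtain ⟨γ, hγ⟩ := hb _ hy
      rw [tau_smul_tau] at hγ
      apply h2
      rw [← hAinv k γ]
      exact hAmono 0 k (Nat.zero_le k) (hAQ _ hγ)
    · simp only [mem_iUnion, mem_ofPred_eq] at hx hy
      obtain ⟨k, h1, h2, h3⟩ := hx
      obtain ⟨j, h4, h5, h6⟩ := hy
      rw [tau_smul_tau] at h6
      have h7 : ¬ j ≤ k := fun h => h2 (hAmono j k h h6)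
      have h8 : ¬ k ≤ j := fun h => h5 (hAmono k j h h3)
      omega

end Pool.Agent.Q14.BH
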