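import Pool.Agent.Q14.BH.SolA

set_option autoImplicit false

/-!
# Job SOL of the project BH: the Borel solution
-/

namespace Pool.Agent.Q14.BH

open Pool.Agent.Q214.BH Set

theorem preimage_meas {X F : Type} [MeasurableSpace X] [Finite F] (R : X → F)
    (hR : ∀ l, MeasurableSet (R ⁻¹' {l})) (S : Set F) : MeasurableSet (R ⁻¹' S) := by
  have h : R ⁻¹' S = ⋃ l ∈ S, R ⁻¹' {l} := by
    ext x
    simp
  rw [h]
  exact (Set.toFinite S).measurableSet_biUnion fun l _ => hR l

theorem PE_meas {X : Type} [MeasurableSpace X] (b : X → ℤ → Prop)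
    (hb : ∀ n, MeasurableSet {x | b x n}) : MeasurableSet {x | PE (b x)} := by
  have h : {x | PE (b x)} =
      (⋃ j : ℕ, ({_x : X | Even j} ∩ ({x | b x (-((j : ℤ) + 1))} ∩
        ⋂ i : ℕ, ⋂ (_ : i < j), {x | b x (-((i : ℤ) + 1))}ᶜ))) ∪
      ((⋂ j : ℕ, {x | b x (-((j : ℤ) + 1))}ᶜ) ∩
        ⋃ k : ℕ, ({_x : X | Even k} ∩ ({x | b x (k : ℤ)} ∩
          ⋂ i : ℕ, ⋂ (_ : i < k), {x | b x (i : ℤ)}ᶜ))) := by
    ext x
    simp only [PE, mem_ofPred_eq, mem_union, mem_iUnion, mem_inter_iff, mem_iInter, mem_compl_iff]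
  rw [h]
  refine MeasurableSet.union (MeasurableSet.iUnion fun j => ?_)
    (MeasurableSet.inter (MeasurableSet.iInter fun j => (hb _).compl)
      (MeasurableSet.iUnion fun j => ?_))
  · exact (MeasurableSet.const _).inter ((hb _).inter
      (MeasurableSet.iInter fun i => MeasurableSet.iInter fun _ => (hb _).compl))
  · exact (MeasurableSet.const _).inter ((hb _).inter
      (MeasurableSet.iInter fun i => MeasurableSet.iInter fun _ => (hb _).compl))

open Classical in
/-- the job SOL -/
theorem sol (hRS : S_RS) : S_SOL := by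
  intro Γ _ _ τ G α t ht hττ hτ hcc hq hqu hqg hqc hqd hqy hcomm X _ _ _ hmeas hfree
  obtain ⟨q, u, g, c, d, y⟩ := G
  dsimp only at hcc hq hqu hqg hqc hqd hqy hcomm
  -- beta
  set ι : X → ℝ := MeasureTheory.embeddingReal X with hι
  have hιm : Measurable ι := MeasureTheory.measurable_embeddingReal X
  have hιi : Function.Injective ι := (MeasureTheory.measurableEmbedding_embeddingReal X).injective
  let Sβ : Set X := {x | ι x < ι (τ • x)}
  have hSβ : MeasurableSet Sβ := measurableSet_lt hιm (hιm.comp (hmeas τ))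
  have hβτ : ∀ x, τ • x ∈ Sβ ↔ x ∉ Sβ := by
    intro x
    have h1 : τ • τ • x = x := by rw [smul_smul, hττ, one_smul]
    have h2 : ι x ≠ ι (τ • x) := fun h => hτ (hfree τ x (hιi h).symm)
    change ι (τ • x) < ι (τ • τ • x) ↔ ¬ ι x < ι (τ • x)
    rw [h1, not_lt]
    exact ⟨le_of_lt, fun h => lt_of_le_of_ne h h2.symm⟩
  -- m
  let Tm : Set X := ⋃ j : ℤ, (fun x : X => q ^ j • x) ⁻¹' Sβ
  have hTm : MeasurableSet Tm := MeasurableSet.iUnion fun j => (hmeas _) hSβ
  have hTmem : ∀ x, x ∈ Tm ↔ ∃ j : ℤ, q ^ j • x ∈ Sβ := by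
    intro x
    simp only [Tm, mem_iUnion, mem_preimage]
  have hzq : ∀ (j : ℤ) (x : X), q ^ j • q • x = q ^ (j + 1) • x := by
    intro j x
    rw [smul_smul, ← zpow_add_one]
  have hTmq : ∀ x, q • x ∈ Tm ↔ x ∈ Tm := by
    intro x
    rw [hTmem, hTmem]
    constructor
    · rintro ⟨j, h⟩
      exact ⟨j + 1, by rw [← hzq]; exact h⟩
    · rintro ⟨j, h⟩
      exact ⟨j - 1, by rw [hzq, sub_add_cancel]; exact h⟩
  -- e1
  let Se : Set X := {x | PE (fun n : ℤ => q ^ n • x ∈ Sβ)}
  have hSe : MeasurableSet Se := PE_meas _ fun n => (hmeas (q ^ n)) hSβ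
  have hSeq : ∀ x, x ∈ Tm → x ∉ Sβ → q • x ∉ Sβ → (q • x ∈ Se ↔ x ∉ Se) := by
    intro x h1 h2 h3
    refine PE_shift (fun n : ℤ => q ^ n • x ∈ Sβ) (fun n : ℤ => q ^ n • q • x ∈ Sβ) ?_ ?_ ?_
    · intro n
      rw [hzq]
    · rw [zpow_zero, one_smul]
      exact h2
    · exact (hTmem x).1 h1
  -- D
  have hcom5 : ∀ i, Commute q ((![u, u⁻¹, g, g⁻¹, c] : Fin 5 → Γ) i) := by
    intro i
    fin_cases i
    · exact hqu
    · exact hqu.inv_right
    · exact hqg
    · exact hqg.inv_right
    · exact hqc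
  obtain ⟨D, hDm, hDok, hDP⟩ := hRS Γ q hq 5 ![u, u⁻¹, g, g⁻¹, c] hcom5 X hmeas hfree Tm hTm hTmq
  let DP : X → Prop := fun x => (D x).P = true
  have hDPm : MeasurableSet {x | DP x} := preimage_meas D hDm {l | l.P = true}
  have hDPq : ∀ x, DP (q • x) ↔ DP x := by
    intro x
    change (D (q • x)).P = true ↔ (D x).P = true
    rw [(hDok x).1]
  have hcinv : c⁻¹ = c := by
    rw [inv_eq_iff_mul_eq_one]
    exact hcc
  set M5 := Submonoid.closure (Set.range (![u, u⁻¹, g, g⁻¹, c] : Fin 5 → Γ)) with hM5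
  have hM5u : u ∈ M5 := Submonoid.subset_closure ⟨0, rfl⟩
  have hM5ui : u⁻¹ ∈ M5 := Submonoid.subset_closure ⟨1, rfl⟩
  have hM5g : g ∈ M5 := Submonoid.subset_closure ⟨2, rfl⟩
  have hM5gi : g⁻¹ ∈ M5 := Submonoid.subset_closure ⟨3, rfl⟩
  have hM5c : c ∈ M5 := Submonoid.subset_closure ⟨4, rfl⟩
  have hM5inv : ∀ a ∈ M5, a⁻¹ ∈ M5 := by
    intro a ha
    induction ha using Submonoid.closure_induction with
    | mem x hx =>
      obtain ⟨i, rfl⟩ := hx
      fin_cases i
      · exact hM5ui
      · change (u⁻¹)⁻¹ ∈ M5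
        rw [inv_inv]
        exact hM5u
      · exact hM5gi
      · change (g⁻¹)⁻¹ ∈ M5
        rw [inv_inv]
        exact hM5g
      · change c⁻¹ ∈ M5
        rw [hcinv]
        exact hM5c
    | one =>
      rw [inv_one]
      exact M5.one_mem
    | mul x y _ _ hx hy =>
      rw [mul_inv_rev]
      exact M5.mul_mem hy hx
  have hDinv : ∀ a ∈ M5, ∀ x, DP (a • x) ↔ DP x := by
    intro a ha x
    change (D (a • x)).P = true ↔ (D x).P = true
    rw [hDP, hDP]
    constructor
    · rintro ⟨b, hb, h⟩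
      exact ⟨b * a, M5.mul_mem hb ha, by rw [mul_smul]; exact h⟩
    · rintro ⟨b, hb, h⟩
      exact ⟨b * a⁻¹, M5.mul_mem hb (hM5inv a ha), by rw [mul_smul, inv_smul_smul]; exact h⟩
  -- phi
  have hcom2 : ∀ i, Commute q ((![g⁻¹, u⁻¹] : Fin 2 → Γ) i) := by
    intro i
    fin_cases i
    · exact hqg.inv_right
    · exact hqu.inv_right
  obtain ⟨φ, hφm, hφok, hφP⟩ := hRS Γ q hq 2 ![g⁻¹, u⁻¹] hcom2 X hmeas hfree {x | DP (d • x)}
    ((hmeas d) hDPm) (by
      intro x
      change DP (d • q • x) ↔ DP (d • x)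
      rw [smul_smul, ← hqd.eq, mul_smul, hDPq])
  let L : X → Prop := fun x => (φ (c • x)).P = true
  let M : X → Prop := fun x => y • x ∈ Tm
  have hLm : MeasurableSet {x | L x} :=
    (hmeas c) (preimage_meas φ hφm {l | l.P = true})
  have hMm : MeasurableSet {x | M x} := (hmeas y) hTm
  have hLq : ∀ x, L (q • x) ↔ L x := by
    intro x
    change (φ (c • q • x)).P = true ↔ (φ (c • x)).P = true
    rw [smul_smul, ← hqc.eq, mul_smul, (hφok (c • x)).1]
  have hMq : ∀ x, M (q • x) ↔ M x := by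
    intro x
    change y • q • x ∈ Tm ↔ y • x ∈ Tm
    rw [smul_smul, ← hqy.eq, mul_smul, hTmq]
  -- the key
  have hhwM : ∀ s : List ℕ, hw u g s ∈ M5 := by
    intro s
    induction s with
    | nil => exact M5.one_mem
    | cons k s ih =>
      exact M5.mul_mem (M5.mul_mem hM5u (pow_mem hM5g k)) ih
  have hhwM2 : ∀ s : List ℕ, (hw u g s)⁻¹ ∈
      Submonoid.closure (Set.range (![g⁻¹, u⁻¹] : Fin 2 → Γ)) := by
    intro s
    have h1 : g⁻¹ ∈ Submonoid.closure (Set.range (![g⁻¹, u⁻¹] : Fin 2 → Γ)) :=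
      Submonoid.subset_closure ⟨0, rfl⟩
    have h2 : u⁻¹ ∈ Submonoid.closure (Set.range (![g⁻¹, u⁻¹] : Fin 2 → Γ)) :=
      Submonoid.subset_closure ⟨1, rfl⟩
    induction s with
    | nil =>
      simp only [hw, inv_one]
      exact Submonoid.one_mem _
    | cons k s ih =>
      simp only [hw, mul_inv_rev]
      refine Submonoid.mul_mem _ ih (Submonoid.mul_mem _ ?_ h2)
      rw [← inv_pow]
      exact pow_mem h1 k
  have hkey : ∀ R s, Rp u g d DP L R s → (t.sub s).isNd = true := by
    intro R s hRs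
    by_contra hcon
    rw [Bool.not_eq_true] at hcon
    have hs : s ≠ [] := by
      rintro rfl
      change t.isNd = false at hcon
      rw [ht] at hcon
      exact absurd hcon (by decide)
    apply hRs.2 s (List.suffix_refl s) hs
    change (φ (c • hw u g s • R)).P = true
    rw [hφP]
    refine ⟨(hw u g s)⁻¹, hhwM2 s, ?_⟩
    change DP (d • (hw u g s)⁻¹ • c • hw u g s • R)
    have h1 : d • (hw u g s)⁻¹ • c • hw u g s • R
        = ((hw u g s)⁻¹ * c * hw u g s) • d • R := by
      simp only [smul_smul]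
      congr 1
      have h2 := (hcomm s hcon).eq
      rw [← mul_assoc, ← mul_assoc] at h2
      rw [← h2]
      simp only [mul_assoc]
    rw [h1, hDinv _ (M5.mul_mem (M5.mul_mem (hM5inv _ (hhwM s)) hM5c) (hhwM s))]
    exact hRs.1
  -- act
  let Act : Set X := ⋃ s : List ℕ, ⋃ j : ℕ,
    (fun x : X => (g ^ j * hw u g s)⁻¹ • x) ⁻¹' {R | Rp u g d DP L R s}
  have hActm : MeasurableSet Act := MeasurableSet.iUnion fun s => MeasurableSet.iUnion fun j =>
    (hmeas _) (Rp_meas u g d DP L hmeas hDPm hLm s)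
  have hAct : ∀ x, x ∈ Act ↔ ∃ (s : List ℕ) (j : ℕ) (R : X), x = (g ^ j * hw u g s) • R ∧
      Rp u g d DP L R s := by
    intro x
    simp only [Act, mem_iUnion, mem_preimage, mem_ofPred_eq]
    constructor
    · rintro ⟨s, j, h⟩
      exact ⟨s, j, _, by rw [smul_inv_smul], h⟩
    · rintro ⟨s, j, R, rfl, h⟩
      exact ⟨s, j, by rw [inv_smul_smul]; exact h⟩
  -- the targets of B
  let V : List ℕ → ℕ → X → Prop := fun s j x => (L (u • x) ∧ M (u • x)) ∨
    (¬ L (u • x) ∧ ¬ bv u g L M (t.sub (j :: s)) 0 (u • x))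
  have hVm : ∀ s j, MeasurableSet {x | V s j x} := by
    intro s j
    exact (((hmeas u) hLm).inter ((hmeas u) hMm)).union
      (((hmeas u) hLm).compl.inter
        ((hmeas u) (bv_meas u g L M hmeas hLm hMm (t.sub (j :: s)) 0)).compl)
  let TB : Set X := ⋃ s : List ℕ, ⋃ j : ℕ,
    ((fun x : X => (g ^ j * hw u g s)⁻¹ • x) ⁻¹' {R | Rp u g d DP L R s} ∩ {x | V s j x})
  have hTBm : MeasurableSet TB := MeasurableSet.iUnion fun s => MeasurableSet.iUnion fun j =>
    ((hmeas _) (Rp_meas u g d DP L hmeas hDPm hLm s)).inter (hVm s j)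
  have hTBmem : ∀ x, x ∈ TB ↔ ∃ (s : List ℕ) (j : ℕ) (R : X), x = (g ^ j * hw u g s) • R ∧
      Rp u g d DP L R s ∧ V s j x := by
    intro x
    simp only [TB, mem_iUnion, mem_inter_iff, mem_preimage, mem_ofPred_eq]
    constructor
    · rintro ⟨s, j, h, h'⟩
      exact ⟨s, j, _, by rw [smul_inv_smul], h, h'⟩
    · rintro ⟨s, j, R, rfl, h, h'⟩
      exact ⟨s, j, by rw [inv_smul_smul]; exact h, h'⟩
  have hcomhw : ∀ s : List ℕ, Commute q (hw u g s) := by
    intro s
    induction s with
    | nil => exact Commute.one_right q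
    | cons k s ih => exact (hqu.mul_right (hqg.pow_right k)).mul_right ih
  have hRpq : ∀ R s, Rp u g d DP L R s → Rp u g d DP L (q • R) s := by
    intro R s h
    refine ⟨?_, ?_⟩
    · rw [smul_smul, ← hqd.eq, mul_smul, hDPq]
      exact h.1
    · intro σ h1 h2
      rw [smul_smul, ← (hcomhw σ).eq, mul_smul, hLq]
      exact h.2 σ h1 h2
  have hRpq' : ∀ R s, Rp u g d DP L R s → Rp u g d DP L (q⁻¹ • R) s := by
    intro R s h
    refine ⟨?_, ?_⟩
    · rw [← hDPq, smul_smul, smul_smul, hqd.eq, mul_inv_cancel_right]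
      exact h.1
    · intro σ h1 h2
      rw [← hLq, smul_smul, smul_smul, (hcomhw σ).eq, mul_inv_cancel_right]
      exact h.2 σ h1 h2
  have hVq : ∀ s j x, V s j (q • x) ↔ V s j x := by
    intro s j x
    have h1 : u • q • x = q • u • x := by rw [smul_smul, ← hqu.eq, mul_smul]
    change ((L (u • q • x) ∧ M (u • q • x)) ∨
      (¬ L (u • q • x) ∧ ¬ bv u g L M (t.sub (j :: s)) 0 (u • q • x))) ↔ _
    rw [h1, hLq, hMq, bv_inv u g q L M hqu hqg hLq hMq]
  have hTBq : ∀ x, q • x ∈ TB ↔ x ∈ TB := by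
    intro x
    rw [hTBmem, hTBmem]
    constructor
    · rintro ⟨s, j, R, h1, h2, h3⟩
      refine ⟨s, j, q⁻¹ • R, ?_, hRpq' R s h2, (hVq s j x).1 h3⟩
      have h4 : x = q⁻¹ • q • x := by rw [inv_smul_smul]
      rw [h4, h1, smul_smul, smul_smul]
      congr 1
      exact (((hqg.pow_right j).mul_right (hcomhw s)).inv_left).eq
    · rintro ⟨s, j, R, h1, h2, h3⟩
      refine ⟨s, j, q • R, ?_, hRpq R s h2, (hVq s j x).2 h3⟩
      rw [h1, smul_smul, smul_smul]
      congr 1
      exact ((hqg.pow_right j).mul_right (hcomhw s)).eq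
  -- B
  have hcom1 : ∀ i, Commute q ((![g] : Fin 1 → Γ) i) := by
    intro i
    fin_cases i
    exact hqg
  obtain ⟨B, hBm, hBok, hBP⟩ := hRS Γ q hq 1 ![g] hcom1 X hmeas hfree TB hTBm hTBq
  have hrange1 : Set.range (![g] : Fin 1 → Γ) = {g} := by
    ext a
    simp [eq_comm]
  have hBP' : ∀ x, (B x).P = true ↔ ∃ n : ℕ, g ^ n • x ∈ TB := by
    intro x
    rw [hBP, hrange1]
    constructor
    · rintro ⟨m, hm, h⟩
      obtain ⟨n, rfl⟩ := Submonoid.mem_closure_singleton.1 hm
      exact ⟨n, h⟩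
    · rintro ⟨n, h⟩
      exact ⟨g ^ n, Submonoid.mem_closure_singleton.2 ⟨n, rfl⟩, h⟩
  -- `u x` for a representation
  have hux : ∀ (s : List ℕ) (j : ℕ) (R : X), u • (g ^ j * hw u g s) • R
      = (g ^ 0 * hw u g (j :: s)) • R := by
    intro s j R
    have := hw_move u g j 0 s R
    rw [pow_zero, one_smul, add_zero] at this
    rw [this]
    rw [pow_zero]
  have hcons : ∀ (s : List ℕ) (j : ℕ) (R : X), Rp u g d DP L R s →
      ¬ L (u • (g ^ j * hw u g s) • R) → Rp u g d DP L R (j :: s) := by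
    intro s j R h1 h2
    refine Rp_cons u g d DP L R s j h1 ?_
    rw [hux, pow_zero, one_mul] at h2
    exact h2
  -- membership in TB for a fixed representation
  have hTBrep : ∀ (s : List ℕ) (j : ℕ) (R : X), Rp u g d DP L R s →
      ((g ^ j * hw u g s) • R ∈ TB ↔ V s j ((g ^ j * hw u g s) • R)) := by
    intro s j R hR
    rw [hTBmem]
    constructor
    · rintro ⟨s', j', R', h1, h2, h3⟩
      rcases h3 with h3 | h3
      · exact Or.inl h3
      · refine Or.inr ⟨h3.1, ?_⟩
        have h4 : Rp u g d DP L R (j :: s) := hcons s j R hR h3.1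
        have h5 : Rp u g d DP L R' (j' :: s') := by
          refine hcons s' j' R' h2 ?_
          rw [← h1]
          exact h3.1
        have h6 : (g ^ 0 * hw u g (j :: s)) • R = (g ^ 0 * hw u g (j' :: s')) • R' := by
          rw [← hux, ← hux, h1]
        have h7 := bv_wd u g d DP L M t hkey _ (j :: s) (j' :: s') 0 0 R R' rfl h4 h5 h6
        rw [← hux] at h7
        rw [h7]
        exact h3.2
    · intro h
      exact ⟨s, j, R, rfl, hR, h⟩
  -- the value of B at a representation
  have hBval : ∀ (s : List ℕ) (j : ℕ) (R : X), Rp u g d DP L R s →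
      ((B ((g ^ j * hw u g s) • R)).P = true ↔
        bv u g L M (t.sub s) j ((g ^ j * hw u g s) • R)) := by
    intro s j R hR
    rw [hBP']
    rcases hb : t.sub s with a | f
    · have h1 := hkey R s hR
      rw [hb] at h1
      exact absurd h1 (by simp [BC.isNd])
    · simp only [bv]
      refine exists_congr fun n => ?_
      have h1 : g ^ n • (g ^ j * hw u g s) • R = (g ^ (j + n) * hw u g s) • R := by
        rw [smul_smul, ← mul_assoc, ← pow_add, add_comm n j]
      have h2 : t.sub ((j + n) :: s) = f (j + n) := by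
        change (t.sub s).child (j + n) = _
        rw [hb]
        rfl
      rw [h1, hTBrep s (j + n) R hR]
      change ((L (u • (g ^ (j + n) * hw u g s) • R) ∧ M (u • (g ^ (j + n) * hw u g s) • R)) ∨
        (¬ L (u • (g ^ (j + n) * hw u g s) • R) ∧
          ¬ bv u g L M (t.sub ((j + n) :: s)) 0 (u • (g ^ (j + n) * hw u g s) • R))) ↔ _
      rw [h2]
  -- the labelling
  refine ⟨fun x => ⟨decide (x ∈ Sβ), decide (x ∈ Tm), decide (x ∈ Se), D x, φ x, B x,
    decide (x ∈ Act)⟩, ?_, ?_⟩
  · intro x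
    refine ⟨?_, ?_, ?_, ?_, ?_, ?_⟩
    · -- beta
      change decide (τ • x ∈ Sβ) ≠ decide ((1 : Γ) • x ∈ Sβ)
      rw [one_smul]
      intro h
      rw [decide_eq_decide] at h
      have h2 := hβτ x
      tauto
    · refine ⟨?_, ?_, ?_⟩
      · change decide (q • x ∈ Tm) = decide ((1 : Γ) • x ∈ Tm)
        rw [one_smul, decide_eq_decide]
        exact hTmq x
      · change decide ((1 : Γ) • x ∈ Tm) = false → decide ((1 : Γ) • x ∈ Sβ) = false
        rw [one_smul, decide_eq_false_iff_not, decide_eq_false_iff_not]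
        intro h h'
        exact h ((hTmem x).2 ⟨0, by rw [zpow_zero, one_smul]; exact h'⟩)
      · change decide ((1 : Γ) • x ∈ Tm) = true → decide ((1 : Γ) • x ∈ Sβ) = false →
          decide (q • x ∈ Sβ) = false → decide (q • x ∈ Se) ≠ decide ((1 : Γ) • x ∈ Se)
        rw [one_smul, decide_eq_true_iff, decide_eq_false_iff_not, decide_eq_false_iff_not]
        intro h1 h2 h3 h4
        rw [decide_eq_decide] at h4
        have h5 := hSeq x h1 h2 h3
        tauto
    · have h1 := hDok x
      have h2 : (fun i => D ((![u, u⁻¹, g, g⁻¹, c] : Fin 5 → Γ) i • x))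
          = ![D (u • x), D (u⁻¹ • x), D (g • x), D (g⁻¹ • x), D (c • x)] := by
        funext i
        fin_cases i <;> rfl
      rw [h2] at h1
      change ReachOK (decide ((1 : Γ) • x ∈ Tm)) (D ((1 : Γ) • x)) (D (q • x))
        ![D (u • x), D (u⁻¹ • x), D (g • x), D (g⁻¹ • x), D (c • x)]
      rw [one_smul]
      exact h1
    · have h1 := hφok x
      have h2 : (fun i => φ ((![g⁻¹, u⁻¹] : Fin 2 → Γ) i • x)) = ![φ (g⁻¹ • x), φ (u⁻¹ • x)] := by
        funext i
        fin_cases i <;> rfl
      rw [h2] at h1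
      change ReachOK (D (d • x)).P (φ ((1 : Γ) • x)) (φ (q • x)) ![φ (g⁻¹ • x), φ (u⁻¹ • x)]
      rw [one_smul]
      have h3 : @decide (x ∈ {x | DP (d • x)}) (Classical.propDecidable _)
          = (D (d • x)).P := by
        rw [Bool.eq_iff_iff]
        exact @decide_eq_true_iff (x ∈ {x | DP (d • x)}) (Classical.propDecidable _)
      rw [h3] at h1
      exact h1
    · change (D (d • x)).P = true → decide ((1 : Γ) • x ∈ Act) = true
      rw [one_smul, decide_eq_true_iff]
      intro h
      refine (hAct x).2 ⟨[], 0, x, by simp [hw], h, ?_⟩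
      intro σ h1 h2
      exact absurd (List.suffix_nil.1 h1) h2
    · change decide ((1 : Γ) • x ∈ Act) = true → decide (g • x ∈ Act) = true ∧
        ((φ ((c * u) • x)).P = false → decide (u • x ∈ Act) = true) ∧
        ReachOK (if (φ ((c * u) • x)).P = true then decide ((y * u) • x ∈ Tm)
          else !(B (u • x)).P) (B ((1 : Γ) • x)) (B (q • x)) ![B (g • x)]
      rw [one_smul, decide_eq_true_iff, decide_eq_true_iff, decide_eq_true_iff]
      intro hx
      obtain ⟨s, j, R, hxR, hR⟩ := (hAct x).1 hx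
      have hLx : L (u • x) ↔ (φ ((c * u) • x)).P = true := by
        rw [mul_smul]
      refine ⟨?_, ?_, ?_⟩
      · refine (hAct _).2 ⟨s, j + 1, R, ?_, hR⟩
        rw [hxR, smul_smul, ← mul_assoc, ← pow_succ']
      · intro h
        have h1 : ¬ L (u • x) := by
          rw [hLx, h]
          decide
        refine (hAct _).2 ⟨j :: s, 0, R, ?_, ?_⟩
        · rw [hxR, hux]
        · refine hcons s j R hR ?_
          rw [← hxR]
          exact h1
      · have h1 := hBok x
        have h2 : (fun i => B ((![g] : Fin 1 → Γ) i • x)) = ![B (g • x)] := by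
          funext i
          fin_cases i
          rfl
        rw [h2] at h1
        have h3 : decide (x ∈ TB) = (if (φ ((c * u) • x)).P = true then
            decide ((y * u) • x ∈ Tm) else !(B (u • x)).P) := by
          have h4 : x ∈ TB ↔ V s j x := by
            rw [hxR]
            exact hTBrep s j R hR
          rw [Bool.eq_iff_iff, decide_eq_true_iff, h4]
          by_cases hL : L (u • x)
          · rw [if_pos (hLx.1 hL), decide_eq_true_iff, mul_smul]
            constructor
            · rintro (h | h)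
              · exact h.2
              · exact absurd hL h.1
            · intro h
              exact Or.inl ⟨hL, h⟩
          · have h5 : Rp u g d DP L R (j :: s) := by
              refine hcons s j R hR ?_
              rw [← hxR]
              exact hL
            have h6 := hBval (j :: s) 0 R h5
            rw [← hux, ← hxR] at h6
            rw [if_neg (fun h => hL (hLx.2 h)), Bool.not_eq_true', ← Bool.not_eq_true, h6]
            constructor
            · rintro (h | h)
              · exact absurd h.1 hL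
              · exact h.2
            · intro h
              exact Or.inr ⟨hL, h⟩
        rw [h3] at h1
        exact h1
  · intro l
    have h1 : ∀ (S : Set X) (b : Bool), MeasurableSet S → MeasurableSet {x | decide (x ∈ S) = b} := by
      intro S b hS
      cases b with
      | true =>
        have : {x | decide (x ∈ S) = true} = S := by
          ext x
          simp
        rw [this]
        exact hS
      | false =>
        have : {x | decide (x ∈ S) = false} = Sᶜ := by
          ext x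
          simp
        rw [this]
        exact hS.compl
    have h2 : (fun x => (⟨decide (x ∈ Sβ), decide (x ∈ Tm), decide (x ∈ Se), D x, φ x, B x,
        decide (x ∈ Act)⟩ : Lb)) ⁻¹' {l} =
        {x | decide (x ∈ Sβ) = l.β} ∩ ({x | decide (x ∈ Tm) = l.m} ∩
          ({x | decide (x ∈ Se) = l.e₁} ∩ (D ⁻¹' {l.D} ∩ (φ ⁻¹' {l.φ} ∩
            (B ⁻¹' {l.B} ∩ {x | decide (x ∈ Act) = l.act}))))) := by
      ext x
      simp only [mem_preimage, mem_singleton_iff, mem_inter_iff, mem_ofPred_eq]
      obtain ⟨b1, b2, b3, b4, b5, b6, b7⟩ := l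
      simp only [Lb.mk.injEq]
    rw [h2]
    exact (h1 _ _ hSβ).inter ((h1 _ _ hTm).inter ((h1 _ _ hSe).inter ((hDm _).inter
      ((hφm _).inter ((hBm _).inter (h1 _ _ hActm))))))

end Pool.Agent.Q14.BH
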