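import Pool.Agent.Q214.BH.Stm

set_option autoImplicit false

/-!
# Job SOL of the project BH, first part: the value function and the two-colouring of the lines
-/

namespace Pool.Agent.Q14.BH

open Pool.Agent.Q214.BH Set

/-- the value function of the tree along the action -/
def bv {Γ : Type} [Group Γ] {α X : Type} [MulAction Γ X] (u g : Γ) (L M : X → Prop) :
    BC α → ℕ → X → Prop
  | .lf _, _, _ => False
  | .nd f, j, x => ∃ i : ℕ, (L (u • g ^ i • x) ∧ M (u • g ^ i • x)) ∨
      (¬ L (u • g ^ i • x) ∧ ¬ bv u g L M (f (j + i)) 0 (u • g ^ i • x))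

theorem bv_meas {Γ : Type} [Group Γ] {α X : Type} [MulAction Γ X] [MeasurableSpace X]
    (u g : Γ) (L M : X → Prop) (hmeas : ∀ γ : Γ, Measurable (fun x : X => γ • x))
    (hL : MeasurableSet {x | L x}) (hM : MeasurableSet {x | M x}) (t : BC α) :
    ∀ j, MeasurableSet {x | bv u g L M t j x} := by
  induction t with
  | lf a =>
    intro j
    simp only [bv]
    exact MeasurableSet.empty
  | nd f ih =>
    intro j
    have h : {x | bv u g L M (.nd f) j x} = ⋃ i : ℕ, (fun x => g ^ i • x) ⁻¹' ((fun x => u • x) ⁻¹'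
        (({x | L x} ∩ {x | M x}) ∪ ({x | L x}ᶜ ∩ {x | bv u g L M (f (j + i)) 0 x}ᶜ))) := by
      ext x
      simp only [bv, mem_ofPred_eq, mem_iUnion, mem_preimage, mem_union, mem_inter_iff,
        mem_compl_iff]
    rw [h]
    exact MeasurableSet.iUnion fun i => (hmeas _) ((hmeas _)
      ((hL.inter hM).union (hL.compl.inter (ih _ _).compl)))

theorem bv_inv {Γ : Type} [Group Γ] {α X : Type} [MulAction Γ X]
    (u g q : Γ) (L M : X → Prop) (hu : Commute q u) (hg : Commute q g)
    (hL : ∀ x, L (q • x) ↔ L x) (hM : ∀ x, M (q • x) ↔ M x) (t : BC α) :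
    ∀ j x, bv u g L M t j (q • x) ↔ bv u g L M t j x := by
  have hmove : ∀ (i : ℕ) (x : X), u • g ^ i • q • x = q • u • g ^ i • x := by
    intro i x
    simp only [smul_smul]
    congr 1
    rw [← (hg.pow_right i).eq, ← mul_assoc, ← hu.eq, mul_assoc]
  induction t with
  | lf a =>
    intro j x
    simp only [bv]
  | nd f ih =>
    intro j x
    simp only [bv]
    refine exists_congr fun i => ?_
    rw [hmove, hL, hM, ih]

/-- a representation of an active point -/
def Rp {Γ : Type} [Group Γ] {X : Type} [MulAction Γ X] (u g d : Γ) (DP L : X → Prop) (R : X)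
    (s : List ℕ) : Prop :=
  DP (d • R) ∧ ∀ σ, σ <:+ s → σ ≠ [] → ¬ L (hw u g σ • R)

theorem Rp_meas {Γ : Type} [Group Γ] {X : Type} [MulAction Γ X] [MeasurableSpace X]
    (u g d : Γ) (DP L : X → Prop) (hmeas : ∀ γ : Γ, Measurable (fun x : X => γ • x))
    (hD : MeasurableSet {x | DP x}) (hL : MeasurableSet {x | L x}) (s : List ℕ) :
    MeasurableSet {R | Rp u g d DP L R s} := by
  have h : {R | Rp u g d DP L R s} = ((fun x => d • x) ⁻¹' {x | DP x}) ∩
      ⋂ σ : List ℕ, ⋂ (_ : σ <:+ s), ⋂ (_ : σ ≠ []),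
        ((fun x => hw u g σ • x) ⁻¹' {x | L x})ᶜ := by
    ext x
    simp only [Rp, mem_ofPred_eq, mem_inter_iff, mem_preimage, mem_iInter, mem_compl_iff]
  rw [h]
  refine ((hmeas _) hD).inter ?_
  exact MeasurableSet.iInter fun σ => MeasurableSet.iInter fun _ => MeasurableSet.iInter fun _ =>
    ((hmeas _) hL).compl

theorem Rp_cons {Γ : Type} [Group Γ] {X : Type} [MulAction Γ X] (u g d : Γ) (DP L : X → Prop)
    (R : X) (s : List ℕ) (k : ℕ) (h : Rp u g d DP L R s) (hk : ¬ L (hw u g (k :: s) • R)) :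
    Rp u g d DP L R (k :: s) := by
  refine ⟨h.1, ?_⟩
  intro σ hσ hne
  rcases List.suffix_cons_iff.1 hσ with rfl | h2
  · exact hk
  · exact h.2 σ h2 hne

theorem hw_move {Γ : Type} [Group Γ] {X : Type} [MulAction Γ X] (u g : Γ) (j i : ℕ) (s : List ℕ)
    (R : X) : u • g ^ i • (g ^ j * hw u g s) • R = (g ^ 0 * hw u g ((j + i) :: s)) • R := by
  simp only [smul_smul, hw, pow_zero, one_mul]
  congr 1
  rw [show j + i = i + j by omega, pow_add]
  simp only [mul_assoc]

/-- the value does not depend on the representation -/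
theorem bv_wd {Γ : Type} [Group Γ] {α X : Type} [MulAction Γ X] (u g d : Γ) (DP L M : X → Prop)
    (t : BC α) (hkey : ∀ R s, Rp u g d DP L R s → (t.sub s).isNd = true) (b : BC α) :
    ∀ (s s' : List ℕ) (j j' : ℕ) (R R' : X), t.sub s = b → Rp u g d DP L R s →
      Rp u g d DP L R' s' → (g ^ j * hw u g s) • R = (g ^ j' * hw u g s') • R' →
      (bv u g L M b j ((g ^ j * hw u g s) • R) ↔
        bv u g L M (t.sub s') j' ((g ^ j * hw u g s) • R)) := by
  induction b with
  | lf a =>
    intro s s' j j' R R' hb h1 h2 h3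
    have h4 := hkey R s h1
    rw [hb] at h4
    exact absurd h4 (by simp [BC.isNd])
  | nd f ih =>
    intro s s' j j' R R' hb h1 h2 h3
    have h4 := hkey R' s' h2
    rcases hb' : t.sub s' with a | f'
    · rw [hb'] at h4
      exact absurd h4 (by simp [BC.isNd])
    · simp only [bv]
      refine exists_congr fun i => ?_
      rw [hw_move]
      refine or_congr Iff.rfl (and_congr_right fun hnL => not_congr ?_)
      have h5 : (g ^ 0 * hw u g ((j + i) :: s)) • R = (g ^ 0 * hw u g ((j' + i) :: s')) • R' := by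
        rw [← hw_move, ← hw_move, h3]
      have h6 : t.sub ((j + i) :: s) = f (j + i) := by
        change (t.sub s).child (j + i) = _
        rw [hb]
        rfl
      have h7 : t.sub ((j' + i) :: s') = f' (j' + i) := by
        change (t.sub s').child (j' + i) = _
        rw [hb']
        rfl
      rw [← h7]
      refine ih (j + i) _ _ 0 0 R R' h6 ?_ ?_ h5
      · refine Rp_cons u g d DP L R s _ h1 ?_
        rw [pow_zero, one_mul] at hnL
        exact hnL
      · refine Rp_cons u g d DP L R' s' _ h2 ?_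
        rw [h5, pow_zero, one_mul] at hnL
        exact hnL

/-- parity of the distance to a mark -/
def PE (b : ℤ → Prop) : Prop :=
  (∃ j : ℕ, Even j ∧ b (-((j : ℤ) + 1)) ∧ ∀ i : ℕ, i < j → ¬ b (-((i : ℤ) + 1))) ∨
    ((∀ j : ℕ, ¬ b (-((j : ℤ) + 1))) ∧
      ∃ k : ℕ, Even k ∧ b (k : ℤ) ∧ ∀ i : ℕ, i < k → ¬ b (i : ℤ))

theorem PE_least (b : ℕ → Prop) (j₀ : ℕ) (h : b j₀) (hm : ∀ i < j₀, ¬ b i) :
    (∃ j : ℕ, Even j ∧ b j ∧ ∀ i : ℕ, i < j → ¬ b i) ↔ Even j₀ := by
  constructor
  · rintro ⟨j, h1, h2, h3⟩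
    have : j = j₀ := by
      rcases lt_trichotomy j j₀ with h4 | h4 | h4
      · exact absurd h2 (hm j h4)
      · exact h4
      · exact absurd h (h3 j₀ h4)
    rw [← this]
    exact h1
  · intro h1
    exact ⟨j₀, h1, h, hm⟩

theorem PE_shift (b b' : ℤ → Prop) (hb' : ∀ n, b' n ↔ b (n + 1)) (h0 : ¬ b 0)
    (hex : ∃ n, b n) : PE b' ↔ ¬ PE b := by
  classical
  by_cases hA : ∃ j : ℕ, b (-((j : ℤ) + 1))
  · have hP : PE b ↔ ∃ j : ℕ, Even j ∧ b (-((j : ℤ) + 1)) ∧
        ∀ i : ℕ, i < j → ¬ b (-((i : ℤ) + 1)) := by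
      constructor
      · rintro (h | h)
        · exact h
        · obtain ⟨j, hj⟩ := hA
          exact absurd hj (h.1 j)
      · exact Or.inl
    have hspec := Nat.find_spec hA
    have hmin := fun i (hi : i < Nat.find hA) => Nat.find_min hA hi
    generalize Nat.find hA = j₀ at hspec hmin
    have hP2 : PE b' ↔ ∃ j : ℕ, Even j ∧ b' (-((j : ℤ) + 1)) ∧
        ∀ i : ℕ, i < j → ¬ b' (-((i : ℤ) + 1)) := by
      constructor
      · rintro (h | h)
        · exact h
        · exfalso
          apply h.1 (j₀ + 1)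
          rw [hb']
          have : (-(((j₀ + 1 : ℕ) : ℤ) + 1) + 1) = -((j₀ : ℤ) + 1) := by push_cast; ring
          rw [this]
          exact hspec
      · exact Or.inl
    rw [hP, hP2]
    rw [PE_least (fun j : ℕ => b (-((j : ℤ) + 1))) j₀ hspec hmin,
      PE_least (fun j : ℕ => b' (-((j : ℤ) + 1))) (j₀ + 1) ?_ ?_]
    · exact Nat.even_add_one
    · rw [hb']
      have : (-(((j₀ + 1 : ℕ) : ℤ) + 1) + 1) = -((j₀ : ℤ) + 1) := by push_cast; ring
      rw [this]
      exact hspec
    · intro i hi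
      rw [hb']
      rcases i with _ | i
      · have : (-(((0 : ℕ) : ℤ) + 1) + 1) = 0 := by simp
        rw [this]
        exact h0
      · have : (-(((i + 1 : ℕ) : ℤ) + 1) + 1) = -((i : ℤ) + 1) := by push_cast; ring
        rw [this]
        exact hmin i (by omega)
  · push Not at hA
    have hk : ∃ k : ℕ, b (k : ℤ) := by
      obtain ⟨n, hn⟩ := hex
      rcases le_or_gt 0 n with h | h
      · exact ⟨n.toNat, by rw [Int.toNat_of_nonneg h]; exact hn⟩
      · exfalso
        apply hA ((-n - 1).toNat)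
        rw [Int.toNat_of_nonneg (by omega)]
        have : -(-n - 1 + 1) = n := by ring
        rw [this]
        exact hn
    have hP : PE b ↔ ∃ k : ℕ, Even k ∧ b (k : ℤ) ∧ ∀ i : ℕ, i < k → ¬ b (i : ℤ) := by
      constructor
      · rintro (⟨j, _, h, _⟩ | h)
        · exact absurd h (hA j)
        · exact h.2
      · intro h
        exact Or.inr ⟨hA, h⟩
    have hA' : ∀ j : ℕ, ¬ b' (-((j : ℤ) + 1)) := by
      intro j
      rw [hb']
      rcases j with _ | j
      · have : (-(((0 : ℕ) : ℤ) + 1) + 1) = 0 := by simp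
        rw [this]
        exact h0
      · have : (-(((j + 1 : ℕ) : ℤ) + 1) + 1) = -((j : ℤ) + 1) := by push_cast; ring
        rw [this]
        exact hA j
    have hP2 : PE b' ↔ ∃ k : ℕ, Even k ∧ b' (k : ℤ) ∧ ∀ i : ℕ, i < k → ¬ b' (i : ℤ) := by
      constructor
      · rintro (⟨j, _, h, _⟩ | h)
        · exact absurd h (hA' j)
        · exact h.2
      · intro h
        exact Or.inr ⟨hA', h⟩
    have hspec := Nat.find_spec hk
    have hmin := fun i (hi : i < Nat.find hk) => Nat.find_min hk hi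
    generalize Nat.find hk = k₀ at hspec hmin
    rcases k₀ with _ | k₀
    · exact absurd hspec h0
    · rw [hP, hP2, PE_least (fun j : ℕ => b (j : ℤ)) (k₀ + 1) hspec hmin,
        PE_least (fun j : ℕ => b' (j : ℤ)) k₀ ?_ ?_]
      · rw [Nat.even_add_one, not_not]
      · rw [hb']
        exact_mod_cast hspec
      · intro i hi
        rw [hb']
        have := hmin (i + 1) (by omega)
        exact_mod_cast this

end Pool.Agent.Q14.BH
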