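import Pool.Agent.Q74.BH.Stm

/-! # Project BH of helper74: job Step (adaptation of `Pool.Agent.Q158.Col4.Q_step`) -/

set_option autoImplicit false

namespace Pool.Agent.Q14.BH

open Finset
open Pool.Agent.Q74.BH
open Pool.Agent.TH930.EBQ (ones wd words T wd_append ones_append cw)
open Pool.Agent.H320R2.PD (FW FWT wwt Wo)
open Pool.Agent.H499R2.ND (GW cls Vw next_scale)
open Pool.Agent.Q158.Col3 (PB PB_mono mass_le_one Err2)
open Pool.Agent.Q158.Col4 (cI kap stage2 word_T exp_decay err_rho PB_triv log43_eq)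

theorem OW_nonneg (t : ℕ) {Φ : List Bool → ℝ} (h : ∀ v, 0 ≤ Φ v) : 0 ≤ OW t Φ :=
  div_nonneg (sum_nonneg fun v _ => h _) (by positivity)

theorem OW_mono (t : ℕ) {Φ Ψ : List Bool → ℝ} (h : ∀ v, Φ v ≤ Ψ v) : OW t Φ ≤ OW t Ψ :=
  div_le_div_of_nonneg_right (sum_le_sum fun v _ => h _) (by positivity)

/-- `SE` after the first steps -/
theorem SE_shift {t k : ℕ} {E : ℕ → Set ℤ} {w : List ℕ} (hw : ∀ a ∈ w, 1 ≤ a)
    (hl : w.length = k) (ht : w.sum ≤ t) {M x : ℤ} (hM : Odd M) (hx : Odd x) (hV : Vw 1 w M x)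
    (hS : M ∈ SE t E) : x ∈ SE (t - w.sum) (fun j => E (j + k)) := by
  obtain ⟨h1, h2⟩ := word_T w hw M x hM hx hV
  unfold SE at hS ⊢
  rw [Set.mem_ofPred_eq] at hS ⊢
  obtain ⟨s, rfl⟩ := Nat.exists_eq_add_of_le ht
  rw [wd_append, ones_append, h2, h1, hl, Nat.add_comm w.sum s, Function.iterate_add_apply, h1,
    Nat.add_comm k] at hS
  rw [Nat.add_sub_cancel_left]
  exact hS

/-- few ones in a word of length `n ≥ 4 μ` -/
theorem few_le (hF : S_Few) {n μ : ℕ} (hn : 1 ≤ n) (h : 4 * μ ≤ n) :
    OW n (fun v => if ones v < μ then 1 else 0) ≤ 2 * Real.exp (-(n / 16 : ℝ)) := by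
  refine le_trans (OW_mono n fun v => ?_) (hF n hn)
  by_cases h1 : ones v < μ
  · rw [if_pos h1, if_pos (by omega)]
  · rw [if_neg h1]
    split_ifs
    · exact zero_le_one
    · exact le_rfl

theorem step (_hC : S_Cls) (hS : S_Stage) (hF : S_Few) (hB : S_Base) : S_Step := by
  intro c c' hc0 hc' hQ B
  obtain ⟨κ₁, C₁, hκ₁, hκ₁1, hC₁, hQ1⟩ := hQ B
  obtain ⟨κ₀, C₀, hκ₀, hκ₀1, hC₀, hQ0⟩ := hB B
  set ζ := 1 + kap * c - c' with hζ
  have hζ0 : 0 < ζ := by rw [hζ]; linarith
  set ρ : ℝ := min (1 / 20) (ζ / (1 + c)) with hρ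
  have hρ0 : 0 < ρ := lt_min (by norm_num) (by positivity)
  have hρ1 : ρ ≤ 1 / 20 := min_le_left _ _
  have hρ2 : ρ * (1 + c) ≤ ζ := by
    have : ρ ≤ ζ / (1 + c) := min_le_right _ _
    rwa [le_div_iff₀ (by linarith)] at this
  obtain ⟨C₂, hC₂, herr⟩ := err_rho B hρ0 hρ1
  set X : ℝ := max 1000 (4 / ζ) with hX
  have hX1 : 1000 ≤ X := le_max_left _ _
  have hX2 : 4 / ζ ≤ X := le_max_right _ _
  obtain ⟨C₃, hC₃⟩ : ∃ C₃ : ℝ, C₃ = 4 * (B.factorial * 100 ^ B) := ⟨_, rfl⟩
  have hC₃0 : 0 < C₃ := by rw [hC₃]; positivity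
  refine ⟨min κ₀ (0.8 * κ₁), (1 + (3 : ℝ) ^ X) * X ^ B + C₀ + (C₁ + C₂ + C₃),
    lt_min hκ₀ (by positivity), (min_le_left _ _).trans hκ₀1, by positivity, ?_⟩
  intro a b hab hs t ht htc μ hμ1 hμ E g hg hE m hm
  have hba : 0 < b - a := by linarith
  set s := Real.log (b - a) with hsd
  have hs0 : 0 < s := by linarith
  have hμr : (1 : ℝ) ≤ μ := by exact_mod_cast hμ1
  have hμs : (μ : ℝ) ^ 2 ≤ s := by
    refine hμ.trans ?_
    have h1 : min κ₀ (0.8 * κ₁) ≤ 1 := (min_le_left _ _).trans hκ₀1
    calc min κ₀ (0.8 * κ₁) * s ≤ 1 * s := mul_le_mul_of_nonneg_right h1 hs0.le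
      _ = s := one_mul s
  have hμs1 : (μ : ℝ) ≤ s := by nlinarith
  have hμB : 0 < (μ : ℝ) ^ B := by positivity
  have hμsB : (μ : ℝ) ^ B ≤ s ^ B := pow_le_pow_left₀ (by positivity) hμs1 B
  have hs2 : 1 ≤ s ^ 2 := one_le_pow₀ hs
  have hg0 : 0 ≤ OW t (fun v => g (ones v) (cl μ v)) := OW_nonneg t fun v => (hg _ _).1
  have hsB : 0 < s ^ B := by positivity
  -- comparison of the errors
  have hcmp : ∀ D : ℝ, 0 ≤ D → D / s ^ B ≤ D * s ^ 2 / (μ : ℝ) ^ B := by
    intro D hD
    calc D / s ^ B ≤ D / (μ : ℝ) ^ B := div_le_div_of_nonneg_left hD hμB hμsB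
      _ ≤ D * s ^ 2 / (μ : ℝ) ^ B := by
        apply div_le_div_of_nonneg_right _ hμB.le
        exact le_mul_of_one_le_right hD hs2
  rcases le_or_gt s X with hcase | hcase
  · -- small windows
    refine PB_mono hab.le ?_ (PB_triv hab hs hcase hm)
    have h1 : 1 + (3 : ℝ) ^ X ≤ ((1 + (3 : ℝ) ^ X) * X ^ B + C₀ + (C₁ + C₂ + C₃)) * s ^ 2 / (μ : ℝ) ^ B := by
      rw [le_div_iff₀ hμB]
      have h2 : (μ : ℝ) ^ B ≤ X ^ B := pow_le_pow_left₀ (by positivity) (hμs1.trans hcase) B
      calc (1 + (3 : ℝ) ^ X) * (μ : ℝ) ^ B ≤ (1 + (3 : ℝ) ^ X) * X ^ B :=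
            mul_le_mul_of_nonneg_left h2 (by positivity)
        _ ≤ ((1 + (3 : ℝ) ^ X) * X ^ B + C₀ + (C₁ + C₂ + C₃)) * 1 := by linarith
        _ ≤ _ := mul_le_mul_of_nonneg_left hs2 (by positivity)
    linarith
  · have hs1000 : 1000 ≤ s := by linarith
    have hC3 : 0 < (1 + (3 : ℝ) ^ X) * X ^ B := by positivity
    rcases le_or_gt (t : ℝ) (6 / 5 * s) with htt | htt
    · refine PB_mono hab.le ?_ (hQ0 a b hab hs t ht htt μ hμ1 (hμ.trans
        (mul_le_mul_of_nonneg_right (min_le_left _ _) hs0.le)) E g hg hE m hm)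
      apply add_le_add_right
      apply div_le_div_of_nonneg_right _ hμB.le
      apply mul_le_mul_of_nonneg_right _ (by positivity)
      linarith
    · obtain ⟨k, hk⟩ : ∃ k : ℕ, k = ⌊s / 2⌋₊ := ⟨_, rfl⟩
      obtain ⟨m', hm'⟩ : ∃ m' : ℕ, m' = ⌊Real.sqrt (0.8 * s)⌋₊ := ⟨_, rfl⟩
      have hk1 : (k : ℝ) ≤ s / 2 := by rw [hk]; exact Nat.floor_le (by linarith)
      have hk2 : s / 2 - 1 ≤ k := by rw [hk]; linarith [Nat.lt_floor_add_one (s / 2)]
      have hk1N : 1 ≤ k := by
        have : (1 : ℝ) ≤ k := by linarith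
        exact_mod_cast this
      have hm'sq : (m' : ℝ) ^ 2 ≤ 0.8 * s := by
        have h1 : (m' : ℝ) ≤ Real.sqrt (0.8 * s) := by
          rw [hm']; exact Nat.floor_le (Real.sqrt_nonneg _)
        calc (m' : ℝ) ^ 2 ≤ (Real.sqrt (0.8 * s)) ^ 2 :=
              pow_le_pow_left₀ (Nat.cast_nonneg _) h1 2
          _ = 0.8 * s := Real.sq_sqrt (by linarith)
      have hm'k : m' ≤ k := by
        have : (m' : ℝ) ≤ k := by
          have h0 : (0 : ℝ) ≤ m' := Nat.cast_nonneg _
          by_contra hcon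
          push Not at hcon
          nlinarith
        exact_mod_cast this
      set r := ⌊ρ * k⌋₊ with hr
      have hrk : (r : ℝ) ≤ ρ * k := Nat.floor_le (by positivity)
      have hr20 : 20 * r ≤ k := by
        have : (20 : ℝ) * r ≤ k := by nlinarith
        exact_mod_cast this
      have hEr := herr (b - a) hba hs1000 k m m' hm hk hm'
      rw [← hr] at hEr
      have h20 : (20 : ℝ) * r ≤ k := by exact_mod_cast hr20
      have hTm : 2 * k + r < t := by
        have : ((2 * k + r : ℕ) : ℝ) < t := by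
          push_cast
          linarith
        exact_mod_cast this
      have hlog2 := Real.log_two_lt_d9
      have hlog20 : 0 < Real.log 2 := Real.log_pos (by norm_num)
      -- the remaining times
      have hrem : ∀ T : ℕ, T ≤ 2 * k + r → 17 / 100 * s ≤ ((t - T : ℕ) : ℝ) := by
        intro T hT
        rw [Nat.cast_sub (by omega)]
        have d1 : (T : ℝ) ≤ 2 * k + r := by exact_mod_cast hT
        linarith
      have hμ4 : ∀ T : ℕ, T ≤ 2 * k + r → 4 * μ ≤ t - T := by
        intro T hT
        have h1 := hrem T hT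
        have h2 : (4 : ℝ) * μ ≤ 17 / 100 * s := by
          by_contra hcon
          push Not at hcon
          nlinarith
        have h3 : ((4 * μ : ℕ) : ℝ) ≤ ((t - T : ℕ) : ℝ) := by
          push_cast [Nat.cast_sub (show T ≤ t by omega)] at h1 ⊢
          linarith
        exact_mod_cast h3
      have hst := stage2 odd_one isCoprime_one_left (S := SE t E)
        (S' := fun T => SE (t - T) (fun j => E (j + k))) hab hk1N hm'k (m := m)
        (Tl := 2 * k - r) (Tm := 2 * k + r)
        (ρ := fun T => OW (t - T) (fun v => g (ones v + k) (cl μ v)) + C₁ * s ^ 2 / (μ : ℝ) ^ B) (by omega)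
        (fun w M x hwl hw hT1 hT2 hMo hxo hMS hV => SE_shift hw hwl (by omega) hMo hxo hV hMS)
        (by
          intro T hT1 hT2
          have hn := next_scale hba hs1000 hk (T := T) (by omega) (by omega)
          have e0 : b * 3 ^ k / 2 ^ T - a * 3 ^ k / 2 ^ T = (b - a) * 3 ^ k / 2 ^ T := by ring
          have hab' : a * 3 ^ k / 2 ^ T < b * 3 ^ k / 2 ^ T := by
            have : 0 < (b - a) * 3 ^ k / 2 ^ T := by positivity
            linarith
          have hlogA : Real.log ((b - a) * 3 ^ k / 2 ^ T) = s + k * Real.log 3 - T * Real.log 2 := by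
            rw [Real.log_div (by positivity) (by positivity),
              Real.log_mul (by positivity) (by positivity), Real.log_pow, Real.log_pow]
          rw [← hsd] at hn
          have hrT := hrem T hT2
          have h1 := hQ1 (a * 3 ^ k / 2 ^ T) (b * 3 ^ k / 2 ^ T) hab' (by rw [e0]; linarith [hn.1])
            (t - T) (by rw [e0]; linarith [hn.2]) (by
              rw [e0, hlogA, Nat.cast_sub (by omega)]
              have d1 : (T : ℝ) ≤ 2 * k + r := by exact_mod_cast hT2
              have d2 : (2 : ℝ) * k ≤ T + r := by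
                have : 2 * k ≤ T + r := by omega
                exact_mod_cast this
              have hl43 := log43_eq
              have d3 : (k : ℝ) * Real.log (4 / 3) ≤ s / 2 * Real.log (4 / 3) :=
                mul_le_mul_of_nonneg_right hk1 (Real.log_nonneg (by norm_num))
              have d4 : ((T : ℝ) - 2 * k) * Real.log 2 ≤ r * Real.log 2 :=
                mul_le_mul_of_nonneg_right (by linarith) hlog20.le
              have d5 : (r : ℝ) * Real.log 2 ≤ r := by
                have : (0 : ℝ) ≤ r := Nat.cast_nonneg r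
                nlinarith
              have d6 : kap * s - r ≤ s + k * Real.log 3 - T * Real.log 2 := by
                unfold kap
                rw [hl43] at d3 ⊢
                linarith
              have d7 : c * (kap * s - r) ≤ c * (s + k * Real.log 3 - T * Real.log 2) :=
                mul_le_mul_of_nonneg_left d6 hc0
              refine le_trans ?_ d7
              have d8 : (r : ℝ) ≤ ρ * (s / 2) :=
                hrk.trans (mul_le_mul_of_nonneg_left hk1 hρ0.le)
              have d9 : (1 + c) * (r : ℝ) ≤ ζ * s / 2 := by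
                have : (1 + c) * (r : ℝ) ≤ (1 + c) * (ρ * (s / 2)) :=
                  mul_le_mul_of_nonneg_left d8 (by linarith)
                have h5 : ρ * (1 + c) * (s / 2) ≤ ζ * (s / 2) :=
                  mul_le_mul_of_nonneg_right hρ2 (by linarith)
                linarith
              have d10 : 2 ≤ ζ * s / 2 := by
                have h5 : 4 / ζ < s := lt_of_le_of_lt hX2 hcase
                rw [div_lt_iff₀ hζ0] at h5
                linarith
              have d11 : c' * s = s + kap * c * s - ζ * s := by rw [hζ]; ring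
              linarith) μ hμ1 (by
              rw [e0]
              refine hμ.trans ?_
              have h5 : min κ₀ (0.8 * κ₁) ≤ 0.8 * κ₁ := min_le_right _ _
              calc min κ₀ (0.8 * κ₁) * s ≤ 0.8 * κ₁ * s := mul_le_mul_of_nonneg_right h5 hs0.le
                _ = κ₁ * (0.8 * s) := by ring
                _ ≤ _ := mul_le_mul_of_nonneg_left hn.1 hκ₁.le)
            (fun j => E (j + k)) (fun o r => g (o + k) r) (fun o r => hg (o + k) r) (by
              intro o r' ho hr0 hr1
              have h6 := hE (o + k) r' (by omega) hr0 hr1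
              have e1 : ∀ z : ℝ, z * 3 ^ k / 2 ^ T * 3 ^ o / 2 ^ (t - T) = z * 3 ^ (o + k) / 2 ^ t := by
                intro z
                have e2 : (2 : ℝ) ^ t = 2 ^ T * 2 ^ (t - T) := by
                  rw [← pow_add]; congr 1; omega
                rw [e2, pow_add]
                field_simp
              rw [e0, e1, e1, e1]
              exact h6) m' (by
              rw [e0]; linarith [hn.1])
          refine PB_mono hab'.le ?_ h1
          rw [e0]
          have h2 : C₁ * Real.log ((b - a) * 3 ^ k / 2 ^ T) ^ 2 / (μ : ℝ) ^ B ≤ C₁ * s ^ 2 / (μ : ℝ) ^ B := by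
            apply div_le_div_of_nonneg_right _ hμB.le
            apply mul_le_mul_of_nonneg_left _ hC₁.le
            exact pow_le_pow_left₀ (by linarith [hn.1]) (by linarith [hn.2]) 2
          linarith)
      refine PB_mono hab.le ?_ hst
      -- the words with few ones
      have hfew : ∑ w ∈ GW (3 * k) k (2 * k - r) (2 * k + r), wwt w *
          OW (t - w.sum) (fun v => if ones v < μ then 1 else 0) ≤ 2 * Real.exp (-(1 / 100 * s)) := by
        have h1 : ∀ w ∈ GW (3 * k) k (2 * k - r) (2 * k + r), wwt w *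
            OW (t - w.sum) (fun v => if ones v < μ then 1 else 0) ≤
            wwt w * (2 * Real.exp (-(1 / 100 * s))) := by
          intro w hw
          unfold GW at hw
          rw [mem_filter] at hw
          have hw0 : 0 ≤ wwt w := by unfold wwt; positivity
          apply mul_le_mul_of_nonneg_left _ hw0
          have h2 := hrem w.sum hw.2.2
          have h3 := few_le hF (n := t - w.sum) (μ := μ) (by omega) (hμ4 w.sum hw.2.2)
          refine h3.trans ?_
          apply mul_le_mul_of_nonneg_left _ (by norm_num)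
          apply Real.exp_le_exp.2
          linarith
        refine (sum_le_sum h1).trans ?_
        rw [← sum_mul]
        have h2 := mul_le_mul_of_nonneg_right (mass_le_one k (2 * k - r) (2 * k + r))
          (show 0 ≤ 2 * Real.exp (-(1 / 100 * s)) by positivity)
        linarith
      have hexp : 2 * (2 * Real.exp (-(1 / 100 * s))) ≤ C₃ / s ^ B := by
        have h1 := exp_decay B (show 0 < 1 / 100 * s by positivity)
        have e1 : (B.factorial : ℝ) / (1 / 100 * s) ^ B = B.factorial * 100 ^ B / s ^ B := by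
          rw [mul_pow, div_pow, one_pow]
          field_simp
        rw [e1] at h1
        rw [hC₃, mul_div_assoc]
        linarith
      have h1 : ∑ w ∈ GW (3 * k) k (2 * k - r) (2 * k + r), wwt w *
          (OW (t - w.sum) (fun v => g (ones v + k) (cl μ v)) + C₁ * s ^ 2 / (μ : ℝ) ^ B) ≤
          OW t (fun v => g (ones v) (cl μ v)) + C₃ / s ^ B + C₁ * s ^ 2 / (μ : ℝ) ^ B := by
        have h2 : ∀ w ∈ GW (3 * k) k (2 * k - r) (2 * k + r), wwt w *
          (OW (t - w.sum) (fun v => g (ones v + k) (cl μ v)) + C₁ * s ^ 2 / (μ : ℝ) ^ B) =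
            wwt w * OW (t - w.sum) (fun v => g (ones v + k) (cl μ v)) +
              wwt w * (C₁ * s ^ 2 / (μ : ℝ) ^ B) :=
          fun w _ => by ring
        rw [sum_congr rfl h2, sum_add_distrib, ← sum_mul]
        have h4 := hS (3 * k) k (2 * k - r) (2 * k + r) t μ hk1N hTm g hg
        have h5 := mul_le_mul_of_nonneg_right (mass_le_one k (2 * k - r) (2 * k + r))
          (show 0 ≤ C₁ * s ^ 2 / (μ : ℝ) ^ B by positivity)
        linarith
      have e2 : ((1 + (3 : ℝ) ^ X) * X ^ B + C₀ + (C₁ + C₂ + C₃)) * s ^ 2 / (μ : ℝ) ^ B =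
          ((1 + (3 : ℝ) ^ X) * X ^ B + C₀) * s ^ 2 / (μ : ℝ) ^ B + C₁ * s ^ 2 / (μ : ℝ) ^ B +
            C₂ * s ^ 2 / (μ : ℝ) ^ B + C₃ * s ^ 2 / (μ : ℝ) ^ B := by ring
      have e3 : 0 ≤ ((1 + (3 : ℝ) ^ X) * X ^ B + C₀) * s ^ 2 / (μ : ℝ) ^ B := by positivity
      have h6 := hcmp C₂ hC₂.le
      have h7 := hcmp C₃ hC₃0.le
      rw [e2]
      linarith

end Pool.Agent.Q14.BH
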