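import Pool.Agent.Q74.BH.Stm

/-! # Project BH of helper74: job TV, the law at unit scale in every interval -/

set_option autoImplicit false

namespace Pool.Agent.Q14.BH

open Finset
open Pool.Agent.Q74.BH
open Pool.Agent.Q74.AR (oc law_F bE bE_mono bE_sq bE_mul T_same odds_same)
open Pool.Agent.TH930.EBQ (ones wd words mem_words ones_le_length)
open Pool.Agent.Q158.Col4 (cI ones_wd)

open Classical in
theorem mem_cn {S : Set ℤ} {α β : ℝ} {μ : ℕ} {r z : ℤ} :
    z ∈ cn S α β μ r ↔ z ∈ Ico ⌈α⌉ ⌈β⌉ ∧ z ∈ S ∧ z % 3 ^ μ = r := by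
  unfold cn
  rw [mem_filter]

/-- the proportion of the integers with a given level and value -/
noncomputable def pr (m H : ℕ) (a : ℤ) (o : ℕ) (z : ℤ) : ℝ :=
  (((Ico a (a + H)).filter (fun x => oc m x = o ∧ Pool.Agent.Q158.Pair.T^[m] x = z)).card : ℝ) / H

/-- typical level and value in the window -/
def good (K : ℝ) (m H : ℕ) (a x : ℤ) : Prop :=
  oc m x ∈ Typ K m ∧ Pool.Agent.Q158.Pair.T^[m] x ∈ Jw m (oc m x) H a

open Classical in
theorem sum_good {m H : ℕ} (hH : 1 ≤ H) (K : ℝ) (a : ℤ) (G : ℕ → ℤ → ℝ) :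
    ∑ x ∈ (Ico a (a + H)).filter (good K m H a), G (oc m x) (Pool.Agent.Q158.Pair.T^[m] x) =
      H * ∑ o ∈ Typ K m, ∑ z ∈ Jw m o H a, pr m H a o z * G o z := by
  have hH0 : (H : ℝ) ≠ 0 := by
    have : (0 : ℝ) < H := by exact_mod_cast hH
    exact this.ne'
  rw [mul_sum]
  have h1 : ∀ o ∈ Typ K m, (H : ℝ) * ∑ z ∈ Jw m o H a, pr m H a o z * G o z =
      ∑ x ∈ Ico a (a + (H : ℤ)), if oc m x = o then
        (if Pool.Agent.Q158.Pair.T^[m] x ∈ Jw m o H a then G o (Pool.Agent.Q158.Pair.T^[m] x) else 0) else 0 := by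
    intro o _
    rw [mul_sum]
    have h2 : ∀ z ∈ Jw m o H a, (H : ℝ) * (pr m H a o z * G o z) =
        ∑ x ∈ Ico a (a + (H : ℤ)), if oc m x = o ∧ Pool.Agent.Q158.Pair.T^[m] x = z then G o z else 0 := by
      intro z _
      unfold pr
      rw [← sum_filter, sum_const, nsmul_eq_mul]
      field_simp
    rw [sum_congr rfl h2, sum_comm]
    apply sum_congr rfl
    intro x _
    by_cases hx : oc m x = o
    · rw [if_pos hx]
      have h3 : ∀ z ∈ Jw m o H a, (if oc m x = o ∧ Pool.Agent.Q158.Pair.T^[m] x = z then G o z else 0) =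
          if Pool.Agent.Q158.Pair.T^[m] x = z then G o z else 0 := by
        intro z _
        by_cases h4 : Pool.Agent.Q158.Pair.T^[m] x = z
        · rw [if_pos ⟨hx, h4⟩, if_pos h4]
        · rw [if_neg (fun h => h4 h.2), if_neg h4]
      rw [sum_congr rfl h3, sum_ite_eq]
    · rw [if_neg hx]
      apply sum_eq_zero
      intro z _
      rw [if_neg (fun h => hx h.1)]
  rw [sum_congr rfl h1, sum_comm, sum_filter]
  apply sum_congr rfl
  intro x _
  have h3 : ∀ o ∈ Typ K m, (if oc m x = o then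
        (if Pool.Agent.Q158.Pair.T^[m] x ∈ Jw m o H a then G o (Pool.Agent.Q158.Pair.T^[m] x) else 0) else 0) =
      if oc m x = o then (if Pool.Agent.Q158.Pair.T^[m] x ∈ Jw m (oc m x) H a then
        G (oc m x) (Pool.Agent.Q158.Pair.T^[m] x) else 0) else 0 := by
    intro o _
    by_cases h : oc m x = o
    · rw [h]
    · rw [if_neg h, if_neg h]
  rw [sum_congr rfl h3, sum_ite_eq]
  unfold good
  by_cases h5 : oc m x ∈ Typ K m
  · rw [if_pos h5]
    by_cases h6 : Pool.Agent.Q158.Pair.T^[m] x ∈ Jw m (oc m x) H a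
    · rw [if_pos h6, if_pos ⟨h5, h6⟩]
    · rw [if_neg h6, if_neg (fun h => h6 h.2)]
  · rw [if_neg h5, if_neg (fun h => h5 h.1)]

open Classical in
theorem tv_fixed {m μ H : ℕ} (hH : 1 ≤ H) (K : ℝ) (a : ℤ) (δ₁ δ₂ δ₃ : ℝ)
    (h1 : (((Ico a (a + (H : ℤ))).filter (fun x => oc m x ∉ Typ K m)).card : ℝ) ≤ H * δ₁)
    (h2 : (((Ico a (a + (H : ℤ))).filter (fun x => oc m x ∈ Typ K m ∧
      Pool.Agent.Q158.Pair.T^[m] x ∉ Jw m (oc m x) H a)).card : ℝ) ≤ H * δ₂)
    (h3 : (((Ico a (a + (H : ℤ))).filter (fun x => good K m H a x ∧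
      den m μ H (oc m x) (Pool.Agent.Q158.Pair.T^[m] x) < pr m H a (oc m x) (Pool.Agent.Q158.Pair.T^[m] x))).card : ℝ) ≤
      H * (∑ o ∈ Typ K m, ∑ z ∈ Jw m o H a, (if den m μ H o z < pr m H a o z then den m μ H o z else 0) + δ₂))
    (h4 : ∑ o ∈ Typ K m, ∑ z ∈ Jw m o H a, den m μ H o z ≤ 1 + δ₃)
    (F : ℕ → ℤ → ℝ) (hF : ∀ o z, |F o z| ≤ 1) :
    |(∑ x ∈ Ico a (a + (H : ℤ)), F (oc m x) (Pool.Agent.Q158.Pair.T^[m] x)) / H -
      ∑ o ∈ Typ K m, ∑ z ∈ Jw m o H a, den m μ H o z * F o z| ≤ 2 * δ₁ + 4 * δ₂ + δ₃ := by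
  have hHp : (0 : ℝ) < H := by exact_mod_cast hH
  have hH0 : (H : ℝ) ≠ 0 := hHp.ne'
  set I := Ico a (a + (H : ℤ)) with hI
  have hIc : (I.card : ℝ) = H := by
    rw [hI, Int.card_Ico, show (a + (H : ℤ) - a).toNat = H by omega]
  set bad := I.filter (fun x => ¬ good K m H a x) with hbad
  -- the bad points
  have hb : (bad.card : ℝ) ≤ H * (δ₁ + δ₂) := by
    have hsub : bad ⊆ I.filter (fun x => oc m x ∉ Typ K m) ∪ I.filter (fun x => oc m x ∈ Typ K m ∧
      Pool.Agent.Q158.Pair.T^[m] x ∉ Jw m (oc m x) H a) := by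
      intro x hx
      rw [hbad, mem_filter] at hx
      rw [mem_union, mem_filter, mem_filter]
      by_cases h5 : oc m x ∈ Typ K m
      · exact Or.inr ⟨hx.1, h5, fun h6 => hx.2 ⟨h5, h6⟩⟩
      · exact Or.inl ⟨hx.1, h5⟩
    have h5 : (bad.card : ℝ) ≤ (I.filter (fun x => oc m x ∉ Typ K m)).card + (I.filter (fun x => oc m x ∈ Typ K m ∧
      Pool.Agent.Q158.Pair.T^[m] x ∉ Jw m (oc m x) H a)).card := by
      exact_mod_cast (card_le_card hsub).trans (card_union_le _ _)
    linarith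
  have hgb : ((I.filter (good K m H a)).card : ℝ) + bad.card = H := by
    rw [← hIc]
    exact_mod_cast card_filter_add_card_filter_not (s := I) (good K m H a)
  -- the mass of the good points
  have hmass : H * ∑ o ∈ Typ K m, ∑ z ∈ Jw m o H a, pr m H a o z = H - bad.card := by
    have h5 := sum_good hH K a (m := m) (fun _ _ => 1)
    simp only [mul_one, sum_const, nsmul_eq_mul] at h5
    rw [← h5]
    linarith
  have hpos : H * ∑ o ∈ Typ K m, ∑ z ∈ Jw m o H a, (if den m μ H o z < pr m H a o z then pr m H a o z else 0) ≤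
      H * (∑ o ∈ Typ K m, ∑ z ∈ Jw m o H a, (if den m μ H o z < pr m H a o z then den m μ H o z else 0) + δ₂) := by
    refine le_trans (le_of_eq ?_) h3
    have h5 := sum_good hH K a (m := m) (fun o z => if den m μ H o z < pr m H a o z then 1 else 0)
    have h6 : ∀ o ∈ Typ K m, ∑ z ∈ Jw m o H a, pr m H a o z * (if den m μ H o z < pr m H a o z then 1 else 0) =
        ∑ z ∈ Jw m o H a, (if den m μ H o z < pr m H a o z then pr m H a o z else 0) := by
      intro o _
      apply sum_congr rfl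
      intro z _
      rw [mul_ite, mul_one, mul_zero]
    rw [sum_congr rfl h6] at h5
    rw [← h5, ← sum_filter, filter_filter, sum_const, nsmul_eq_mul, mul_one]
  have hFsum : ∑ x ∈ I, F (oc m x) (Pool.Agent.Q158.Pair.T^[m] x) =
      H * (∑ o ∈ Typ K m, ∑ z ∈ Jw m o H a, pr m H a o z * F o z) +
        ∑ x ∈ bad, F (oc m x) (Pool.Agent.Q158.Pair.T^[m] x) := by
    rw [← sum_good hH K a F, hbad, sum_filter_add_sum_filter_not]
  have hFbad : |∑ x ∈ bad, F (oc m x) (Pool.Agent.Q158.Pair.T^[m] x)| ≤ bad.card := by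
    refine (abs_sum_le_sum_abs _ _).trans ?_
    refine (sum_le_sum (fun x _ => hF _ _)).trans (le_of_eq ?_)
    rw [sum_const, nsmul_eq_mul, mul_one]
  have e1 : (∑ x ∈ I, F (oc m x) (Pool.Agent.Q158.Pair.T^[m] x)) / H -
      ∑ o ∈ Typ K m, ∑ z ∈ Jw m o H a, den m μ H o z * F o z =
      ∑ o ∈ Typ K m, ∑ z ∈ Jw m o H a, (pr m H a o z - den m μ H o z) * F o z +
        (∑ x ∈ bad, F (oc m x) (Pool.Agent.Q158.Pair.T^[m] x)) / H := by
    rw [hFsum]
    have e2 : ∑ o ∈ Typ K m, ∑ z ∈ Jw m o H a, (pr m H a o z - den m μ H o z) * F o z =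
        ∑ o ∈ Typ K m, ∑ z ∈ Jw m o H a, pr m H a o z * F o z -
          ∑ o ∈ Typ K m, ∑ z ∈ Jw m o H a, den m μ H o z * F o z := by
      rw [← sum_sub_distrib]
      apply sum_congr rfl
      intro o _
      rw [← sum_sub_distrib]
      apply sum_congr rfl
      intro z _
      ring
    rw [e2]
    field_simp
    ring
  have e3 : |∑ o ∈ Typ K m, ∑ z ∈ Jw m o H a, (pr m H a o z - den m μ H o z) * F o z| ≤
      ∑ o ∈ Typ K m, ∑ z ∈ Jw m o H a, (2 * (if den m μ H o z < pr m H a o z then pr m H a o z else 0) -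
        2 * (if den m μ H o z < pr m H a o z then den m μ H o z else 0) - pr m H a o z + den m μ H o z) := by
    refine (abs_sum_le_sum_abs _ _).trans (sum_le_sum fun o _ => ?_)
    refine (abs_sum_le_sum_abs _ _).trans (sum_le_sum fun z _ => ?_)
    rw [abs_mul]
    have h5 : |pr m H a o z - den m μ H o z| * |F o z| ≤ |pr m H a o z - den m μ H o z| * 1 :=
      mul_le_mul_of_nonneg_left (hF o z) (abs_nonneg _)
    refine h5.trans ?_
    rw [mul_one]
    split_ifs with h6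
    · rw [abs_of_pos (by linarith)]
      linarith
    · rw [abs_of_nonpos (by linarith)]
      linarith
  have e4 : ∑ o ∈ Typ K m, ∑ z ∈ Jw m o H a, (2 * (if den m μ H o z < pr m H a o z then pr m H a o z else 0) -
        2 * (if den m μ H o z < pr m H a o z then den m μ H o z else 0) - pr m H a o z + den m μ H o z) =
      2 * (∑ o ∈ Typ K m, ∑ z ∈ Jw m o H a, (if den m μ H o z < pr m H a o z then pr m H a o z else 0)) -
      2 * (∑ o ∈ Typ K m, ∑ z ∈ Jw m o H a, (if den m μ H o z < pr m H a o z then den m μ H o z else 0)) -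
      (∑ o ∈ Typ K m, ∑ z ∈ Jw m o H a, pr m H a o z) +
      ∑ o ∈ Typ K m, ∑ z ∈ Jw m o H a, den m μ H o z := by
    simp only [sum_add_distrib, sum_sub_distrib, mul_sum]
  have h6 := le_of_mul_le_mul_left hpos hHp
  have h7 : ∑ o ∈ Typ K m, ∑ z ∈ Jw m o H a, pr m H a o z = 1 - bad.card / H := by
    field_simp
    linarith
  have h8 : (bad.card : ℝ) / H ≤ δ₁ + δ₂ := by
    rw [div_le_iff₀ hHp]
    linarith
  have h9 : |(∑ x ∈ bad, F (oc m x) (Pool.Agent.Q158.Pair.T^[m] x)) / H| ≤ bad.card / H := by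
    rw [abs_div, abs_of_pos hHp]
    exact div_le_div_of_nonneg_right hFbad hHp.le
  rw [e1]
  refine (abs_add_le _ _).trans ?_
  rw [e4, h7] at e3
  linarith

/-- the sets of the values where the proportion exceeds the model -/
def EE (K : ℝ) (m μ H : ℕ) (a : ℤ) (o : ℕ) : Set ℤ :=
  {z | o ∈ Typ K m ∧ z ∈ Jw m o H a ∧ den m μ H o z < pr m H a o z}

/-- their densities in the classes -/
noncomputable def gE (K : ℝ) (m μ H : ℕ) (a : ℤ) (o : ℕ) (r : ℤ) : ℝ :=
  ((cn (EE K m μ H a o) (a * 3 ^ o / 2 ^ m) (((a : ℝ) + H) * 3 ^ o / 2 ^ m) μ r).card : ℝ) * (3 ^ μ / ln m o H)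

open Classical in
theorem sum_gE (K : ℝ) (m μ H : ℕ) (a : ℤ) : (∑ v ∈ words m, gE K m μ H a (ones v) (cl μ v)) / 2 ^ m =
    ∑ o ∈ Typ K m, ∑ z ∈ Jw m o H a, (if den m μ H o z < pr m H a o z then den m μ H o z else 0) := by
  have hcard : ∀ (o : ℕ) (r : ℤ), gE K m μ H a o r =
      ∑ z ∈ Jw m o H a, if z ∈ EE K m μ H a o ∧ z % 3 ^ μ = r then (3 ^ μ / ln m o H : ℝ) else 0 := by
    intro o r
    unfold gE cn
    rw [← sum_filter, sum_const, nsmul_eq_mul]
    rfl
  have h1 : ∀ v ∈ words m, gE K m μ H a (ones v) (cl μ v) = ∑ o ∈ range (m + 1), ∑ z ∈ Jw m o H a,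
      if z ∈ EE K m μ H a o ∧ (ones v = o ∧ cl μ v = z % 3 ^ μ) then (3 ^ μ / ln m o H : ℝ) else 0 := by
    intro v hv
    rw [mem_words] at hv
    have hov : ones v ∈ range (m + 1) := by
      rw [mem_range]
      have := ones_le_length v
      omega
    rw [sum_eq_single_of_mem (ones v) hov]
    · rw [hcard]
      apply sum_congr rfl
      intro z _
      by_cases h : z ∈ EE K m μ H a (ones v) ∧ z % 3 ^ μ = cl μ v
      · rw [if_pos h, if_pos ⟨h.1, rfl, h.2.symm⟩]
      · rw [if_neg h, if_neg (fun h' => h ⟨h'.1, h'.2.2.symm⟩)]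
    · intro o _ ho
      apply sum_eq_zero
      intro z _
      rw [if_neg (fun h => ho h.2.1.symm)]
  rw [sum_congr rfl h1, sum_comm]
  have h2 : ∀ o ∈ range (m + 1), ∑ v ∈ words m, ∑ z ∈ Jw m o H a,
      (if z ∈ EE K m μ H a o ∧ (ones v = o ∧ cl μ v = z % 3 ^ μ) then (3 ^ μ / ln m o H : ℝ) else 0) =
      if o ∈ Typ K m then 2 ^ m * ∑ z ∈ Jw m o H a, (if den m μ H o z < pr m H a o z then den m μ H o z else 0)
        else 0 := by
    intro o _
    rw [sum_comm]
    split_ifs with ho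
    · rw [mul_sum]
      apply sum_congr rfl
      intro z hz
      split_ifs with h3
      · have h4 : z ∈ EE K m μ H a o := ⟨ho, hz, h3⟩
        have h5 : ∀ v ∈ words m, (if z ∈ EE K m μ H a o ∧ (ones v = o ∧ cl μ v = z % 3 ^ μ) then
            (3 ^ μ / ln m o H : ℝ) else 0) = if (ones v = o ∧ cl μ v = z % 3 ^ μ) then (3 ^ μ / ln m o H : ℝ) else 0 := by
          intro v _
          by_cases h6 : ones v = o ∧ cl μ v = z % 3 ^ μ
          · rw [if_pos ⟨h4, h6⟩, if_pos h6]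
          · rw [if_neg (fun h => h6 h.2), if_neg h6]
        rw [sum_congr rfl h5, ← sum_filter, sum_const, nsmul_eq_mul]
        unfold den om
        have h2m : (2 : ℝ) ^ m ≠ 0 := by positivity
        rw [mul_comm (2 ^ m : ℝ), div_mul_eq_mul_div, div_mul_cancel₀ _ h2m]
      · rw [mul_zero]
        apply sum_eq_zero
        intro v _
        rw [if_neg (fun h => h3 h.1.2.2)]
    · apply sum_eq_zero
      intro z _
      apply sum_eq_zero
      intro v _
      rw [if_neg (fun h => ho h.1.1)]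
  rw [sum_congr rfl h2, ← sum_filter, ← mul_sum]
  have h3 : (range (m + 1)).filter (fun o => o ∈ Typ K m) = Typ K m := by
    ext o
    rw [mem_filter]
    refine ⟨fun h => h.2, fun h => ⟨?_, h⟩⟩
    unfold Typ at h
    exact (mem_filter.1 h).1
  rw [h3]
  field_simp

theorem mem_SE {t : ℕ} {E : ℕ → Set ℤ} {x : ℤ} :
    x ∈ SE t E ↔ Pool.Agent.Q158.Pair.T^[t] x ∈ E (oc t x) := by
  unfold SE
  rw [Set.mem_ofPred_eq, T_same, ones_wd, odds_same]

theorem ln_pos {m o H : ℕ} (hH : 1 ≤ H) : 0 < ln m o H := by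
  unfold ln
  have : (0 : ℝ) < H := by exact_mod_cast hH
  positivity

/-- Chebyshev -/
theorem cheb {K : ℝ} (hK : 0 < K) {m : ℕ} (hm : 1 ≤ m) :
    bE m (fun k => if |(k : ℝ) - m / 2| ≤ K * √m then 0 else 1) ≤ 1 / (4 * K ^ 2) := by
  have hm0 : (0 : ℝ) < m := by exact_mod_cast hm
  have h1 := bE_mono m (fun k => if |(k : ℝ) - m / 2| ≤ K * √m then 0 else 1)
    (fun k => (1 / (K ^ 2 * m)) * ((k : ℝ) - m / 2) ^ 2) (fun k => by
      split_ifs with h
      · positivity
      · push Not at h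
        rw [one_div, inv_mul_eq_div, le_div_iff₀ (by positivity), one_mul]
        have h2 : (K * √m) ^ 2 ≤ |(k : ℝ) - m / 2| ^ 2 := pow_le_pow_left₀ (by positivity) h.le 2
        rw [sq_abs, mul_pow, Real.sq_sqrt hm0.le] at h2
        exact h2)
  rw [bE_mul, bE_sq] at h1
  refine h1.trans (le_of_eq ?_)
  field_simp
  ring

open Classical in
theorem tv (_hC : S_Cls) (hU : S_Up) (hL : S_Ln) (hM : S_Mass) : S_TV := by
  intro η ε K hη hε hK
  obtain ⟨κ, C, hκ, hκ1, hC, hup⟩ := hU (cI - η) (by linarith) 6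
  obtain ⟨H₁, hH₁2, hlaw⟩ := law_F (η := η) (ε := ε / 8) hη (by positivity)
  obtain ⟨H₂, hln⟩ := hL η K (min 1 (ε / 8)) hη hK (lt_min one_pos (by positivity))
  have htend : Filter.Tendsto (fun L : ℕ => Real.log (L : ℝ)) Filter.atTop Filter.atTop :=
    Real.tendsto_log_atTop.comp tendsto_natCast_atTop_atTop
  obtain ⟨H₃, hH₃⟩ := Filter.eventually_atTop.1
    ((htend.eventually_ge_atTop (4 / κ)).and (htend.eventually_ge_atTop (64 * C / κ ^ 3 / (ε / 8))))
  refine ⟨max (max H₁ H₂) H₃, fun H hH m hm1 hm2 => ?_⟩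
  have hHH₁ : H₁ ≤ H := (le_max_left _ _).trans ((le_max_left _ _).trans hH)
  have hHH₂ : H₂ ≤ H := (le_max_right _ _).trans ((le_max_left _ _).trans hH)
  obtain ⟨hs1, hs2⟩ := hH₃ H ((le_max_right _ _).trans hH)
  have hH2 : 2 ≤ H := hH₁2.trans hHH₁
  have hHr : (2 : ℝ) ≤ H := by exact_mod_cast hH2
  have hHp : (0 : ℝ) < H := by linarith
  set s := Real.log H with hs
  have hs0 : 0 < s := Real.log_pos (by linarith)
  have hm : 1 ≤ m := by
    have : (0 : ℝ) < m := by linarith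
    exact_mod_cast this
  -- the choice of `μ`
  have hκs : 4 ≤ κ * s := by
    rw [div_le_iff₀ hκ] at hs1
    linarith
  set q := √(κ * s) with hq
  have hqq : q ^ 2 = κ * s := Real.sq_sqrt (by positivity)
  have hq2 : 2 ≤ q := by
    rw [hq]
    apply Real.le_sqrt_of_sq_le
    linarith
  obtain ⟨μ, hμ⟩ : ∃ μ : ℕ, μ = ⌊q⌋₊ := ⟨_, rfl⟩
  have hμq : (μ : ℝ) ≤ q := by rw [hμ]; exact Nat.floor_le (by linarith)
  have hμq2 : q / 2 ≤ μ := by
    have : q < μ + 1 := by rw [hμ]; exact Nat.lt_floor_add_one q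
    linarith
  have hμ1 : 1 ≤ μ := by
    have : (1 : ℝ) ≤ μ := by linarith
    exact_mod_cast this
  have hμ0 : (0 : ℝ) < μ := by linarith
  have hμκ : (μ : ℝ) ^ 2 ≤ κ * s := by
    rw [← hqq]
    exact pow_le_pow_left₀ hμ0.le hμq 2
  have hμs : (μ : ℝ) ^ 2 ≤ s := hμκ.trans (by
    calc κ * s ≤ 1 * s := mul_le_mul_of_nonneg_right hκ1 hs0.le
      _ = s := one_mul s)
  have herr : C * s ^ 2 / (μ : ℝ) ^ 6 ≤ ε / 8 := by
    have h1 : (κ * s) ^ 3 / 64 ≤ (μ : ℝ) ^ 6 := by
      rw [← hqq]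
      have h2 : (q / 2) ^ 6 ≤ (μ : ℝ) ^ 6 := pow_le_pow_left₀ (by linarith) hμq2 6
      refine le_trans (le_of_eq ?_) h2
      ring
    have h3 : 0 < (κ * s) ^ 3 / 64 := by positivity
    calc C * s ^ 2 / (μ : ℝ) ^ 6 ≤ C * s ^ 2 / ((κ * s) ^ 3 / 64) :=
          div_le_div_of_nonneg_left (by positivity) h3 h1
      _ = 64 * C / κ ^ 3 / s := by
          field_simp
      _ ≤ ε / 8 := by
          rw [div_le_iff₀ hs0]
          rw [div_le_iff₀ (by positivity)] at hs2
          linarith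
  refine ⟨μ, hμs, fun a F hF => ?_⟩
  have hlnm := fun o ho => hln H hHH₂ m hm1 hm2 μ hμs o ho
  have hmem : ∀ x : ℤ, x ∈ Ico a (a + (H : ℤ)) → a ≤ x ∧ x < a + H := fun x hx => mem_Ico.1 hx
  have hcard : ((Ico a (a + (H : ℤ))).card : ℝ) = H := by
    rw [Int.card_Ico, show (a + (H : ℤ) - a).toNat = H by omega]
  -- (1) the numbers of odd steps
  have h1 : (((Ico a (a + (H : ℤ))).filter (fun x => oc m x ∉ Typ K m)).card : ℝ) ≤
      H * (ε / 8 + 1 / (4 * K ^ 2)) := by
    have h2 := hlaw H hHH₁ a m hm2 (fun k => if |(k : ℝ) - m / 2| ≤ K * √m then 0 else 1)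
      (fun k => by split_ifs <;> norm_num) (fun k => by split_ifs <;> norm_num)
    have h3 := (abs_le.1 h2).2
    have h4 := cheb hK hm
    have h5 : (∑ h ∈ range H, (fun k : ℕ => if |(k : ℝ) - m / 2| ≤ K * √m then (0 : ℝ) else 1) (oc m (a + h))) ≤
        H * (ε / 8 + 1 / (4 * K ^ 2)) := by
      have h6 : (∑ h ∈ range H, (fun k : ℕ => if |(k : ℝ) - m / 2| ≤ K * √m then (0 : ℝ) else 1) (oc m (a + h))) / H ≤
          ε / 8 + 1 / (4 * K ^ 2) := by linarith
      rw [div_le_iff₀ hHp] at h6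
      linarith
    refine le_trans (le_of_eq ?_) h5
    have h6 : Ico a (a + (H : ℤ)) = (range H).image (fun h : ℕ => a + (h : ℤ)) := by
      ext x
      rw [mem_Ico, mem_image]
      constructor
      · rintro ⟨h7, h8⟩
        exact ⟨(x - a).toNat, by rw [mem_range]; omega, by omega⟩
      · rintro ⟨h, hh, rfl⟩
        rw [mem_range] at hh
        omega
    rw [card_filter, h6, sum_image (fun x _ y _ h => by
      have h' : a + (x : ℤ) = a + (y : ℤ) := h
      omega)]
    push_cast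
    apply sum_congr rfl
    intro h _
    have hoc := Pool.Agent.Q74.AR.oc_le m (a + (h : ℤ))
    have h7 : oc m (a + (h : ℤ)) ∈ Typ K m ↔ |((oc m (a + (h : ℤ)) : ℕ) : ℝ) - m / 2| ≤ K * √m := by
      unfold Typ
      rw [mem_filter, mem_range]
      exact ⟨fun h => h.2, fun h => ⟨by omega, h⟩⟩
    by_cases h8 : oc m (a + (h : ℤ)) ∈ Typ K m
    · rw [if_neg (not_not.2 h8), if_pos (h7.1 h8)]
    · rw [if_pos h8, if_neg (fun h9 => h8 (h7.2 h9))]
  -- (2) the values outside of the windows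
  have h2 : (((Ico a (a + (H : ℤ))).filter (fun x => oc m x ∈ Typ K m ∧
      Pool.Agent.Q158.Pair.T^[m] x ∉ Jw m (oc m x) H a)).card : ℝ) ≤ H * (ε / 8) := by
    have h3 := hup H hH2 a m hm1 hm2 μ hμ1 hμκ (fun o => {z | o ∈ Typ K m ∧ z ∉ Jw m o H a}) (fun _ _ => 0)
      (fun _ _ => ⟨le_rfl, by norm_num⟩) (by
        intro o r _ _ _
        have h4 : cn {z | o ∈ Typ K m ∧ z ∉ Jw m o H a} (a * 3 ^ o / 2 ^ m) (((a : ℝ) + H) * 3 ^ o / 2 ^ m) μ r = ∅ := by
          rw [eq_empty_iff_forall_notMem]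
          intro z hz
          rw [mem_cn] at hz
          exact hz.2.1.2 hz.1
        rw [h4, card_empty, Nat.cast_zero, zero_mul])
      ((Ico a (a + (H : ℤ))).filter (fun x => oc m x ∈ Typ K m ∧
        Pool.Agent.Q158.Pair.T^[m] x ∉ Jw m (oc m x) H a)) (by
        intro x hx
        rw [mem_filter] at hx
        exact ⟨(hmem x hx.1).1, (hmem x hx.1).2, mem_SE.2 hx.2⟩)
    rw [sum_const_zero, zero_div, zero_add] at h3
    exact h3.trans (mul_le_mul_of_nonneg_left herr hHp.le)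
  -- (3) the values where the proportion exceeds the model
  have hgE : ∀ o r, 0 ≤ gE K m μ H a o r ∧ gE K m μ H a o r ≤ 2 := by
    intro o r
    have hl := ln_pos (m := m) (o := o) (H := H) (by omega)
    refine ⟨by unfold gE; positivity, ?_⟩
    by_cases ho : o ∈ Typ K m
    · obtain ⟨h4, -⟩ := hlnm o ho
      have h5 : (3 : ℝ) ^ μ ≤ ln m o H := by
        refine h4.trans ?_
        calc min 1 (ε / 8) * ln m o H ≤ 1 * ln m o H := mul_le_mul_of_nonneg_right (min_le_left _ _) hl.le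
          _ = ln m o H := one_mul _
      have hab : (a : ℝ) * 3 ^ o / 2 ^ m ≤ ((a : ℝ) + H) * 3 ^ o / 2 ^ m := by
        apply div_le_div_of_nonneg_right _ (by positivity)
        apply mul_le_mul_of_nonneg_right _ (by positivity)
        linarith
      have h6 : cn (EE K m μ H a o) (a * 3 ^ o / 2 ^ m) (((a : ℝ) + H) * 3 ^ o / 2 ^ m) μ r ⊆
          Pool.Agent.H499R2.ND.ap (a * 3 ^ o / 2 ^ m) (((a : ℝ) + H) * 3 ^ o / 2 ^ m) (3 ^ μ) r := by
        intro z hz
        unfold cn at hz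
        unfold Pool.Agent.H499R2.ND.ap
        rw [mem_filter] at hz ⊢
        refine ⟨hz.1, ?_⟩
        rw [← hz.2.2]
        exact Int.dvd_self_sub_emod
      have h7 := Pool.Agent.H499R2.ND.ap_card_le hab (q := 3 ^ μ) (by positivity) r
      have h8 : ((cn (EE K m μ H a o) (a * 3 ^ o / 2 ^ m) (((a : ℝ) + H) * 3 ^ o / 2 ^ m) μ r).card : ℝ) ≤
          ln m o H / 3 ^ μ + 1 := by
        refine le_trans ?_ (h7.trans (le_of_eq ?_))
        · exact_mod_cast card_le_card h6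
        · push_cast
          unfold ln
          ring
      unfold gE
      have h9 : 0 ≤ (3 : ℝ) ^ μ / ln m o H := by positivity
      calc _ ≤ (ln m o H / 3 ^ μ + 1) * (3 ^ μ / ln m o H) := mul_le_mul_of_nonneg_right h8 h9
        _ = 1 + 3 ^ μ / ln m o H := by
            field_simp
        _ ≤ 1 + 1 := by
            have : (3 : ℝ) ^ μ / ln m o H ≤ 1 := by
              rw [div_le_one hl]
              exact h5
            linarith
        _ = 2 := by norm_num
    · have h4 : cn (EE K m μ H a o) (a * 3 ^ o / 2 ^ m) (((a : ℝ) + H) * 3 ^ o / 2 ^ m) μ r = ∅ := by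
        rw [eq_empty_iff_forall_notMem]
        intro z hz
        unfold cn at hz
        rw [mem_filter] at hz
        exact ho hz.2.1.1
      unfold gE
      rw [h4, card_empty, Nat.cast_zero, zero_mul]
      norm_num
  have h3 : (((Ico a (a + (H : ℤ))).filter (fun x => good K m H a x ∧
      den m μ H (oc m x) (Pool.Agent.Q158.Pair.T^[m] x) < pr m H a (oc m x) (Pool.Agent.Q158.Pair.T^[m] x))).card : ℝ) ≤
      H * (∑ o ∈ Typ K m, ∑ z ∈ Jw m o H a, (if den m μ H o z < pr m H a o z then den m μ H o z else 0) + ε / 8) := by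
    have h4 := hup H hH2 a m hm1 hm2 μ hμ1 hμκ (EE K m μ H a) (gE K m μ H a) hgE (by
        intro o r _ _ _
        have hl := ln_pos (m := m) (o := o) (H := H) (by omega)
        unfold gE
        have e1 : (H : ℝ) * 3 ^ o / 2 ^ m / 3 ^ μ = ln m o H / 3 ^ μ := by unfold ln; rfl
        rw [e1]
        apply le_of_eq
        field_simp)
      ((Ico a (a + (H : ℤ))).filter (fun x => good K m H a x ∧
        den m μ H (oc m x) (Pool.Agent.Q158.Pair.T^[m] x) < pr m H a (oc m x) (Pool.Agent.Q158.Pair.T^[m] x))) (by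
        intro x hx
        rw [mem_filter] at hx
        exact ⟨(hmem x hx.1).1, (hmem x hx.1).2, mem_SE.2 ⟨hx.2.1.1, hx.2.1.2, hx.2.2⟩⟩)
    rw [sum_gE] at h4
    refine h4.trans (mul_le_mul_of_nonneg_left ?_ hHp.le)
    linarith
  -- (4) the mass of the model
  have h4 : ∑ o ∈ Typ K m, ∑ z ∈ Jw m o H a, den m μ H o z ≤ 1 + ε / 8 := by
    have h5 : ∀ o ∈ Typ K m, ∑ z ∈ Jw m o H a, den m μ H o z ≤ (m.choose o : ℝ) / 2 ^ m * (1 + ε / 8) := by
      intro o ho
      have hl := ln_pos (m := m) (o := o) (H := H) (by omega)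
      obtain ⟨h6, -⟩ := hlnm o ho
      have h7 := (abs_le.1 (hM m μ H o a (by omega)).2.2).2
      have h8 : (3 : ℝ) ^ μ / ln m o H ≤ ε / 8 := by
        rw [div_le_iff₀ hl]
        exact h6.trans (mul_le_mul_of_nonneg_right (min_le_right _ _) hl.le)
      have h9 : (m.choose o : ℝ) / 2 ^ m * (3 ^ μ / ln m o H) ≤ (m.choose o : ℝ) / 2 ^ m * (ε / 8) :=
        mul_le_mul_of_nonneg_left h8 (by positivity)
      rw [mul_add, mul_one]
      linarith
    refine (sum_le_sum h5).trans ?_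
    rw [← sum_mul]
    have h6 : ∑ o ∈ Typ K m, (m.choose o : ℝ) / 2 ^ m ≤ 1 := by
      have h7 : ∑ o ∈ range (m + 1), (m.choose o : ℝ) / 2 ^ m = 1 := by
        rw [← sum_div, div_eq_one_iff_eq (by positivity)]
        have := Nat.sum_range_choose m
        exact_mod_cast this
      rw [← h7]
      apply sum_le_sum_of_subset_of_nonneg
      · unfold Typ
        exact filter_subset _ _
      · intro o _ _
        positivity
    calc _ ≤ 1 * (1 + ε / 8) := mul_le_mul_of_nonneg_right h6 (by positivity)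
      _ = 1 + ε / 8 := one_mul _
  have h5 := tv_fixed (by omega) K a _ _ _ h1 h2 h3 h4 F hF
  refine h5.trans ?_
  have h6 : 0 < 1 / K ^ 2 := by positivity
  have h7 : 2 * (1 / (4 * K ^ 2)) = 1 / K ^ 2 / 2 := by
    field_simp
    norm_num
  rw [mul_add, h7]
  linarith

end Pool.Agent.Q14.BH
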